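import Pool.Agent.Lib.MP_f80667_ag.Sp.Def
import Pool.Agent.Lib.MP_f80667_ag.Pe.GlE
import Pool.Agent.Lib.MP_f80667_ag.Pe.Kg

/-! The exceptional set is finite. -/

open ZC BE PE IsDedekindDomain NumberField

namespace NE

variable {F : Type} [Field F] [NumberField F] {n : ℕ}

/-- A curve has good reduction at almost all places. Proof: for `C = 1`: the coefficients are integral and `Δ` is a unit at all but finitely many places (as `lv_fin`, used in `gl_fin`, `Pe/GlE.lean`). -/
theorem ssv_fin (W : WeierstrassCurve F) [W.IsElliptic] :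
    {v : HeightOneSpectrum (𝓞 F) | ¬ SsV v W}.Finite := by
  refine (lv_fin W W).subset ?_
  intro v hv h
  refine hv ⟨1, ?_, Or.inl ?_⟩
  · rw [one_smul]
    exact h.i₂
  · rw [one_smul]
    exact h.d₂

/-- Only finitely many prime numbers `l` do not satisfy `Jv l v W` at some `v`. -/
private theorem fin_jv (W : WeierstrassCurve F) [W.IsElliptic] :
    {l : ℕ | l.Prime ∧ ∃ v : HeightOneSpectrum (𝓞 F), ¬ Jv l v W}.Finite := by
  have h1 : (HeightOneSpectrum.Support (𝓞 F) W.j).Finite := HeightOneSpectrum.Support.finite (𝓞 F) W.j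
  refine (h1.biUnion (t := fun v => {l : ℕ | ∃ n : ℤ, v.valuation F W.j = WithZero.exp n ∧
    (l : ℤ) ∣ n ∧ 0 < n}) fun v _ => ?_).subset ?_
  · by_cases hv : ∃ n : ℤ, v.valuation F W.j = WithZero.exp n ∧ 0 < n
    · obtain ⟨n, hn, h0⟩ := hv
      refine (Set.finite_Iic n.natAbs).subset ?_
      rintro l ⟨m, hm, hd, hm0⟩
      have : m = n := WithZero.exp_injective (hm.symm.trans hn)
      subst this
      exact Nat.le_of_dvd (by omega) (by exact_mod_cast Int.natAbs_dvd_natAbs.2 hd)
    · have : {l : ℕ | ∃ n : ℤ, v.valuation F W.j = WithZero.exp n ∧ (l : ℤ) ∣ n ∧ 0 < n} = ∅ := by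
        ext l
        simp only [Set.mem_ofPred_eq, Set.mem_empty_iff_false, iff_false]
        rintro ⟨n, h1, _, h3⟩
        exact hv ⟨n, h1, h3⟩
      rw [this]
      exact Set.finite_empty
  · rintro l ⟨_, v, hv⟩
    unfold Jv at hv
    push Not at hv
    obtain ⟨n, hn, hd, h0⟩ := hv
    refine Set.mem_biUnion (x := v) ?_ ⟨n, hn, hd, h0⟩
    change 1 < v.valuation F W.j
    rw [hn, ← WithZero.exp_zero]
    exact WithZero.exp_lt_exp.2 h0

/-- A finite place is above only one prime number. -/
private theorem fin_uniq (v : HeightOneSpectrum (𝓞 F)) {l m : ℕ} (hl : l.Prime) (hm : m.Prime)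
    (h1 : v.valuation F (l : F) < 1) (h2 : v.valuation F (m : F) < 1) : l = m := by
  by_contra hne
  have hc : Nat.Coprime l m := (Nat.coprime_primes hl hm).2 hne
  have hb := Int.isCoprime_iff_gcd_eq_one.2 (show Int.gcd (l : ℤ) (m : ℤ) = 1 from hc)
  obtain ⟨a, b, hab⟩ := hb
  have hab' : (a : F) * (l : F) + (b : F) * (m : F) = 1 := by
    exact_mod_cast congrArg (Int.cast (R := F)) hab
  have hz : ∀ c : ℤ, v.valuation F (c : F) ≤ 1 := by
    intro c
    have h1 : (c : F) = algebraMap (𝓞 F) F (c : 𝓞 F) := (map_intCast _ c).symm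
    rw [h1]
    exact v.valuation_le_one _
  have h3 : v.valuation F ((a : F) * (l : F) + (b : F) * (m : F)) < 1 := by
    refine Valuation.map_add_lt _ ?_ ?_
    · rw [map_mul]
      exact (mul_le_of_le_one_left' (hz a)).trans_lt h1
    · rw [map_mul]
      exact (mul_le_of_le_one_left' (hz b)).trans_lt h2
  rw [hab', map_one] at h3
  exact lt_irrefl _ h3

/-- Only finitely many prime numbers are below a finite set of places. -/
private theorem fin_below {S : Set (HeightOneSpectrum (𝓞 F))} (hS : S.Finite) :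
    {l : ℕ | l.Prime ∧ ∃ v ∈ S, v.valuation F (l : F) < 1}.Finite := by
  refine (hS.biUnion (t := fun v => {l : ℕ | l.Prime ∧ v.valuation F (l : F) < 1})
    fun v _ => ?_).subset ?_
  · refine Set.Subsingleton.finite ?_
    rintro l ⟨hl, h1⟩ m ⟨hm, h2⟩
    exact fin_uniq v hl hm h1 h2
  · rintro l ⟨hl, v, h1, h2⟩
    exact Set.mem_biUnion (x := v) h1 ⟨hl, h2⟩

/-- Proof: as `gl_fin` (`Pe/GlE.lean`): the prime number `2`; the prime numbers ramified in `F` (`unr_fin`, see `Pe/Kg.lean`, `Pe/GlN.lean`); the prime numbers below the places with `¬ SsV v (W i)` (`ssv_fin`; a finite place is above only one prime number) and `3`; the prime numbers which divide one of the finitely many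
positive `n` with `v(j) = exp n` (`jv_fin` in `Pe/GlE.lean` is private: copy). -/
theorem plc_fin (W : Fin n → WeierstrassCurve F) [∀ i, (W i).IsElliptic] :
    {l : ℕ | l.Prime ∧ ¬ Plc W l}.Finite := by
  have hu := fin_below (unr_fin (F := F))
  have hs := Set.finite_iUnion fun i => fin_below (ssv_fin (W i))
  have hj := Set.finite_iUnion fun i => fin_jv (W i)
  refine ((((Set.finite_Iio 4).union hu).union hs).union hj).subset ?_
  rintro l ⟨hl, hP⟩
  by_contra hc
  simp only [Set.mem_union, not_or] at hc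
  obtain ⟨⟨⟨h4, h5⟩, h6⟩, h7⟩ := hc
  have h4' : 4 ≤ l := not_lt.1 h4
  refine hP ⟨hl, by omega, fun v hv => ?_, fun v hv i => ?_, fun v i k hk hd => ?_⟩
  · by_contra h8
    refine h5 ⟨hl, v, ?_, hv⟩
    rintro ⟨⟨p, hp, hpv⟩, -⟩
    have h9 : v.valuation F (p : F) < 1 := by
      rw [hpv, ← WithZero.exp_zero]
      exact WithZero.exp_lt_exp.2 (by norm_num)
    have h10 := fin_uniq v hl hp hv h9
    subst h10
    exact h8 hpv
  · rcases hv with hv | hv
    · by_contra h8
      exact h6 (Set.mem_iUnion.2 ⟨i, hl, v, h8, hv⟩)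
    · omega
  · by_contra h8
    refine h7 (Set.mem_iUnion.2 ⟨i, hl, v, fun h9 => ?_⟩)
    have h10 := h9 (k : ℤ) hk (by exact_mod_cast hd)
    omega

end NE
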