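import Pool.Agent.Lib.MP_f80667_ag.Sp.Def
import Pool.Agent.Lib.MP_f80667_ag.Pe.GloC

/-! Curves over `ℚ`: explicit conditions. -/

open ZC BE PE IsDedekindDomain NumberField

namespace NE

/-- The discriminant has small exponents: it is not divisible by `p ^ L`, and not by `p ^ 2` for `p > L`. -/
structure DtO (L : ℕ) (A : WeierstrassCurve ℤ) : Prop where
  lo : ∀ p : ℕ, p.Prime → ¬ (p : ℤ) ^ L ∣ A.Δ
  hi : ∀ p : ℕ, p.Prime → L < p → ¬ (p : ℤ) ^ 2 ∣ A.Δ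

theorem DtO.ne {L : ℕ} {A : WeierstrassCurve ℤ} (h : DtO L A) : A.Δ ≠ 0 :=
  fun h0 => h.lo 2 Nat.prime_two (by rw [h0]; exact dvd_zero _)

/-- `p ^ 2` does not divide `Δ`: the reduction at `p` is good or multiplicative. Proof: let `p` divide `Δ` and `c₄`. If `p ≥ 5`: `1728 Δ = c₄³ - c₆²`, so `p` divides `c₆`, `p²` divides `1728 Δ` and `Δ`. If `p = 2`: `c₄ = b₂² - 24 b₄`, so `b₂ = a₁² + 4 a₂` and `a₁` are even, `b₂` is divisible by `4`,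
`b₄ = 2 a₄ + a₁ a₃` is even, `Δ = - b₂² b₈ - 8 b₄³ - 27 b₆² + 9 b₂ b₄ b₆` is even, so `b₆` is even, `4` divides `Δ`. If `p = 3`: `3` divides `b₂`, `b₄` and `9` divides `Δ`. -/
theorem c₄_of {A : WeierstrassCurve ℤ} {p : ℕ} (hp : p.Prime) (h : ¬ (p : ℤ) ^ 2 ∣ A.Δ) :
    ¬ (p : ℤ) ∣ A.Δ ∨ ¬ (p : ℤ) ∣ A.c₄ := by
  by_contra hc
  push Not at hc
  obtain ⟨h1, h2⟩ := hc
  apply h
  have hpz : Prime (p : ℤ) := Nat.prime_iff_prime_int.1 hp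
  have hD : A.Δ = -A.b₂ ^ 2 * A.b₈ - 8 * A.b₄ ^ 3 - 27 * A.b₆ ^ 2 + 9 * A.b₂ * A.b₄ * A.b₆ := rfl
  have hc4 : A.c₄ = A.b₂ ^ 2 - 24 * A.b₄ := rfl
  rcases eq_or_ne p 2 with rfl | hp2
  · have hb2 : A.b₂ = A.a₁ ^ 2 + 4 * A.a₂ := rfl
    have hb4 : A.b₄ = 2 * A.a₄ + A.a₁ * A.a₃ := rfl
    rw [Nat.cast_ofNat] at h1 h2 hpz ⊢
    have e1 : (2 : ℤ) ∣ A.b₂ ^ 2 := by
      have : A.b₂ ^ 2 = A.c₄ + 2 * (12 * A.b₄) := by rw [hc4]; ring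
      rw [this]
      exact dvd_add h2 (dvd_mul_right _ _)
    have e2 : (2 : ℤ) ∣ A.a₁ := by
      refine hpz.dvd_of_dvd_pow (n := 2) ?_
      have : A.a₁ ^ 2 = A.b₂ - 2 * (2 * A.a₂) := by rw [hb2]; ring
      rw [this]
      exact dvd_sub (hpz.dvd_of_dvd_pow e1) (dvd_mul_right _ _)
    obtain ⟨α, hα⟩ := e2
    have e3 : A.b₂ = 4 * (α ^ 2 + A.a₂) := by rw [hb2, hα]; ring
    have e4 : A.b₄ = 2 * (A.a₄ + α * A.a₃) := by rw [hb4, hα]; ring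
    have e5 : (2 : ℤ) ∣ A.b₆ := by
      refine hpz.dvd_of_dvd_pow (n := 2) ?_
      have : A.b₆ ^ 2 = A.Δ + 2 * (8 * (α ^ 2 + A.a₂) ^ 2 * A.b₈ + 4 * A.b₄ ^ 3 + 14 * A.b₆ ^ 2
          - 18 * (α ^ 2 + A.a₂) * A.b₄ * A.b₆) := by rw [hD, e3]; ring
      rw [this]
      exact dvd_add h1 (dvd_mul_right _ _)
    obtain ⟨β, hβ⟩ := e5
    refine ⟨-4 * (α ^ 2 + A.a₂) ^ 2 * A.b₈ - 16 * (A.a₄ + α * A.a₃) ^ 3 - 27 * β ^ 2
      + 36 * (α ^ 2 + A.a₂) * (A.a₄ + α * A.a₃) * β, ?_⟩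
    rw [hD, e3, e4, hβ]
    ring
  rcases eq_or_ne p 3 with rfl | hp3
  · rw [Nat.cast_ofNat] at h1 h2 hpz ⊢
    have e1 : (3 : ℤ) ∣ A.b₂ := by
      refine hpz.dvd_of_dvd_pow (n := 2) ?_
      have : A.b₂ ^ 2 = A.c₄ + 3 * (8 * A.b₄) := by rw [hc4]; ring
      rw [this]
      exact dvd_add h2 (dvd_mul_right _ _)
    obtain ⟨α, hα⟩ := e1
    have e2 : (3 : ℤ) ∣ A.b₄ := by
      refine hpz.dvd_of_dvd_pow (n := 3) ?_
      have : A.b₄ ^ 3 = A.Δ + 3 * (3 * α ^ 2 * A.b₈ + 3 * A.b₄ ^ 3 + 9 * A.b₆ ^ 2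
          - 9 * α * A.b₄ * A.b₆) := by rw [hD, hα]; ring
      rw [this]
      exact dvd_add h1 (dvd_mul_right _ _)
    obtain ⟨β, hβ⟩ := e2
    refine ⟨-α ^ 2 * A.b₈ - 24 * β ^ 3 - 3 * A.b₆ ^ 2 + 9 * α * β * A.b₆, ?_⟩
    rw [hD, hα, hβ]
    ring
  · have hrel := A.c_relation
    have e1 : (p : ℤ) ∣ A.c₆ := by
      refine hpz.dvd_of_dvd_pow (n := 2) ?_
      have : A.c₆ ^ 2 = A.c₄ * A.c₄ ^ 2 - 1728 * A.Δ := by linear_combination hrel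
      rw [this]
      exact dvd_sub (dvd_mul_of_dvd_left h2 _) (dvd_mul_of_dvd_right h1 _)
    have e2 : (p : ℤ) ^ 2 ∣ 1728 * A.Δ := by
      rw [hrel]
      refine dvd_sub ((pow_dvd_pow _ (by norm_num)).trans (pow_dvd_pow_of_dvd h2 3))
        (pow_dvd_pow_of_dvd e1 2)
    refine IsCoprime.dvd_of_dvd_mul_left ?_ e2
    refine IsCoprime.pow_left ?_
    have h3 : p.Coprime 1728 := by
      rw [hp.coprime_iff_not_dvd]
      intro h4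
      have h5 : p ∣ 2 ^ 6 * 3 ^ 3 := by norm_num; exact h4
      rcases (hp.dvd_mul).1 h5 with h6 | h6
      · exact hp2 ((Nat.prime_dvd_prime_iff_eq hp Nat.prime_two).1 (hp.dvd_of_dvd_pow h6))
      · exact hp3 ((Nat.prime_dvd_prime_iff_eq hp Nat.prime_three).1 (hp.dvd_of_dvd_pow h6))
    exact_mod_cast Nat.isCoprime_iff_coprime.2 h3

private theorem sq_int (v : HeightOneSpectrum (𝓞 ℚ)) (n : ℤ) : v.valuation ℚ (n : ℚ) ≤ 1 := by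
  have h : (n : ℚ) = algebraMap (𝓞 ℚ) ℚ (n : 𝓞 ℚ) := (map_intCast _ n).symm
  rw [h]
  exact v.valuation_le_one _

private theorem sq_c₄ (A : WeierstrassCurve ℤ) : (toQ A).c₄ = ((A.c₄ : ℤ) : ℚ) := by
  unfold toQ
  rw [WeierstrassCurve.baseChange, WeierstrassCurve.map_c₄]
  rfl

/-- The value of an integer. -/
private theorem sq_val {v : HeightOneSpectrum (𝓞 ℚ)} {p : ℕ}
    (hp1 : v.valuation ℚ (p : ℚ) = WithZero.exp (-1 : ℤ))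
    (hpn : ∀ n : ℤ, v.valuation ℚ (n : ℚ) = 1 ↔ ¬ (p : ℤ) ∣ n) {L : ℕ} {x : ℤ}
    (h : ¬ (p : ℤ) ^ L ∣ x) : ∃ k : ℕ, k < L ∧ v.valuation ℚ (x : ℚ) = WithZero.exp (-(k : ℤ)) := by
  have h1 := emultiplicity_lt_iff_not_dvd.2 h
  obtain ⟨k, hk⟩ := ENat.ne_top_iff_exists.1 (ne_top_of_lt h1)
  rw [← hk] at h1
  have h2 : k < L := by exact_mod_cast h1
  have h3 : (p : ℤ) ^ k ∣ x := by
    rw [pow_dvd_iff_le_emultiplicity, ← hk]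
  obtain ⟨y, hy⟩ := h3
  have h4 : ¬ (p : ℤ) ∣ y := by
    rintro ⟨z, rfl⟩
    have h5 : (p : ℤ) ^ (k + 1) ∣ x := ⟨z, by rw [hy]; ring⟩
    rw [pow_dvd_iff_le_emultiplicity, ← hk] at h5
    have h6 : k + 1 ≤ k := by exact_mod_cast h5
    omega
  refine ⟨k, h2, ?_⟩
  rw [hy]
  push_cast
  rw [map_mul, map_pow, hp1, (hpn y).2 h4, mul_one, ← WithZero.exp_nsmul]
  congr 1
  simp

/-- The denominator of the `j`-invariant. -/
private theorem sq_jv {A : WeierstrassCurve ℤ} {v : HeightOneSpectrum (𝓞 ℚ)} {L l : ℕ} (hL : L ≤ l)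
    (h : ∀ p : ℕ, p.Prime → ¬ (p : ℤ) ^ L ∣ A.Δ) [(toQ A).IsElliptic] {n : ℕ}
    (hn : v.valuation ℚ (toQ A).j = WithZero.exp (n : ℤ)) (hd : l ∣ n) : n = 0 := by
  obtain ⟨p, hp, hp1, hpn⟩ := exists_p v
  obtain ⟨k, hk, hv⟩ := sq_val hp1 hpn (h p hp)
  by_contra hc
  have h1 := Nat.le_of_dvd (Nat.pos_of_ne_zero hc) hd
  have hj : (toQ A).j * (toQ A).Δ = (toQ A).c₄ ^ 3 := by
    rw [WeierstrassCurve.j, mul_right_comm, ← (toQ A).coe_Δ', Units.inv_mul, one_mul]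
  have h2 := congrArg (v.valuation ℚ) hj
  rw [map_mul, hn, disc_toQ, hv, map_pow, ← WithZero.exp_add, sq_c₄] at h2
  have h4 : v.valuation ℚ ((A.c₄ : ℤ) : ℚ) ^ 3 ≤ 1 := pow_le_one₀ zero_le (sq_int v _)
  rw [← h2, ← WithZero.exp_zero, WithZero.exp_le_exp] at h4
  omega

/-- The prime number of a place above `l`. -/
private theorem sq_p {v : HeightOneSpectrum (𝓞 ℚ)} {p l : ℕ} (hp : p.Prime) (hl : l.Prime)
    (hpn : ∀ n : ℤ, v.valuation ℚ (n : ℚ) = 1 ↔ ¬ (p : ℤ) ∣ n)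
    (hv : v.valuation ℚ (l : ℚ) < 1) : p = l := by
  by_contra hne
  have h2 : v.valuation ℚ ((l : ℤ) : ℚ) = 1 := by
    rw [hpn]
    intro h3
    have h4 : p ∣ l := by exact_mod_cast h3
    exact hne ((Nat.prime_dvd_prime_iff_eq hp hl).1 h4)
  rw [Int.cast_natCast] at h2
  rw [h2] at hv
  exact lt_irrefl _ hv

private theorem sq_lt {v : HeightOneSpectrum (𝓞 ℚ)} {p : ℕ}
    (hp1 : v.valuation ℚ (p : ℚ) = WithZero.exp (-1 : ℤ)) : v.valuation ℚ (p : ℚ) < 1 := by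
  rw [hp1, ← WithZero.exp_zero, WithZero.exp_lt_exp]
  norm_num

/-- Proof: `v` is above one prime number `p` (`exists_p`, `Pe/GloC.lean` or as in `Nf/DtnB.lean`); `C = 1`; `c₄_of`. -/
theorem ssv_of {A : WeierstrassCurve ℤ} {v : HeightOneSpectrum (𝓞 ℚ)} {p : ℕ} (hp : p.Prime)
    (hv : v.valuation ℚ (p : ℚ) < 1) (h : ¬ (p : ℤ) ^ 2 ∣ A.Δ) : SsV v (toQ A) := by
  obtain ⟨q, hq, hq1, hqn⟩ := exists_p v
  have hqp : q = p := sq_p hq hp hqn hv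
  subst hqp
  refine ⟨1, ?_, ?_⟩
  · rw [one_smul]
    exact ⟨sq_int v A.a₁, sq_int v A.a₂, sq_int v A.a₃, sq_int v A.a₄, sq_int v A.a₆⟩
  · rw [one_smul, disc_toQ, sq_c₄, hqn, hqn]
    exact c₄_of hp h

/-- Squarefree discriminants: all odd prime numbers. Proof: `ssv_of`; `v(j) = exp n`, `n ≤ 1`. -/
theorem sq_pl {n : ℕ} {W : Fin n → WeierstrassCurve ℤ} [∀ i, (toQ (W i)).IsElliptic]
    (h : ∀ i, Squarefree (W i).Δ) {l : ℕ} (hl : l.Prime) (h2 : l ≠ 2) :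
    Plc (fun i => toQ (W i)) l := by
  have hs : ∀ i, ∀ p : ℕ, p.Prime → ¬ (p : ℤ) ^ 2 ∣ (W i).Δ := by
    intro i p hp hd
    have h3 : IsUnit (p : ℤ) := h i _ (by rwa [← pow_two])
    rw [Int.isUnit_iff_natAbs_eq, Int.natAbs_natCast] at h3
    exact hp.one_lt.ne' h3
  refine ⟨hl, h2, fun v hv => ?_, fun v _ i => ?_, fun v i n hn hd => ?_⟩
  · obtain ⟨p, hp, hp1, hpn⟩ := exists_p v
    have h1 := sq_p hp hl hpn hv
    subst h1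
    exact hp1
  · obtain ⟨p, hp, hp1, hpn⟩ := exists_p v
    exact ssv_of hp (sq_lt hp1) (hs i p hp)
  · exact sq_jv hl.two_le (hs i) hn hd

/-- Small exponents: all prime numbers greater than `L`. Proof: `ssv_of`; `v(j) = exp n`, `n < L` (as `dtnb_jv` in `Nf/DtnB.lean`). -/
theorem dt_pl {n : ℕ} {W : Fin n → WeierstrassCurve ℤ} [∀ i, (toQ (W i)).IsElliptic] {L l : ℕ}
    (hL : 3 ≤ L) (h : ∀ i, DtO L (W i)) (hl : l.Prime) (hLl : L < l) :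
    Plc (fun i => toQ (W i)) l := by
  refine ⟨hl, by omega, fun v hv => ?_, fun v hv i => ?_, fun v i n hn hd => ?_⟩
  · obtain ⟨p, hp, hp1, hpn⟩ := exists_p v
    have h1 := sq_p hp hl hpn hv
    subst h1
    exact hp1
  · rcases hv with hv | hv
    · exact ssv_of hl hv ((h i).hi l hl hLl)
    · omega
  · exact sq_jv hLl.le (h i).lo hn hd

end NE
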