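import Pool.Agent.Lib.MP_f80667_ag.Sp.NfB
import Pool.Agent.Lib.MP_f80667_ag.Sp.Sq
import Pool.Agent.Lib.MP_f80667_ag.Nf.Odn

/-! The theorem for products of elliptic curves over number fields. -/

open ZC BE PE Polynomial IntermediateField IsDedekindDomain NumberField CV

namespace NE

variable {F : Type} [Field F] [NumberField F] {n : ℕ}

/-- The condition on the denominator of the `j`-invariant. -/
theorem Plc.jv' {W : Fin n → WeierstrassCurve F} [∀ i, (W i).IsElliptic] {l : ℕ} (h : Plc W l)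
    (v : HeightOneSpectrum (𝓞 F)) (i : Fin n) : Jv l v (W i) := by
  intro k hk hd
  by_contra hc
  push Not at hc
  obtain ⟨m, rfl⟩ := Int.eq_ofNat_of_zero_le hc.le
  have h1 := h.jv v i m hk (Int.natCast_dvd_natCast.1 hd)
  rw [h1] at hc
  exact absurd hc (lt_irrefl _)

/-- The places. -/
theorem dv_pl {W : Fin n → WeierstrassCurve F} [∀ i, (W i).IsElliptic] {l : ℕ} (h : Plc W l)
    (v : HeightOneSpectrum (𝓞 F)) : DvP (FK F v) (fun i => Ev (W i)) l := by
  have h1 : v.valuation F (l : F) ≤ 1 := by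
    have e : (l : F) = algebraMap (𝓞 F) F (l : 𝓞 F) := (map_natCast _ l).symm
    rw [e]
    exact v.valuation_le_one _
  rcases h1.lt_or_eq with h1 | h1
  · exact dv_eq h.pr h.odd (h.unr v h1) (h.ss v (Or.inl h1)) (h.jv' v)
  · exact dv_ne h.pr h.odd (fun h3 => h.ss v (Or.inr h3)) h1 (h.jv' v)

/-- **The theorem for number fields.** -/
theorem main_pl {W : Fin n → WeierstrassCurve F} [∀ i, (W i).IsElliptic] {P : Set ℕ} (h2 : 2 ∉ P)
    (h : ∀ l ∈ P, l.Prime → Plc W l) : QnP W P := by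
  have key : ∀ m : ℕ, m ≠ 0 → Sf P m → ∀ c : Fam (En W), AlbPA c →
      ∃ c' : Fam (En W), AlbPA c' ∧ c.cl = m • c'.cl := by
    intro m hm hS c hc
    exact fam_dvP (Λ := P) h2 (fun l hl hp v => dv_pl (h l hl hp) v) m hm hS c hc
  refine ⟨key, fun z z' hz => imDeS_iff (fun i => bpE (W i)) (fun m hm hS c hc => ?_) hz⟩
  obtain ⟨c', -, hc'⟩ := key m hm hS c hc
  exact ⟨c', hc'⟩

theorem main_plc (W : Fin n → WeierstrassCurve F) [∀ i, (W i).IsElliptic] :
    QnP W {l | Plc W l} :=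
  main_pl (fun h' => Plc.odd h' rfl) fun _ hl _ => hl

/-- Squarefree discriminants. -/
theorem main_sq {W : Fin n → WeierstrassCurve ℤ} (h : ∀ i, Squarefree (W i).Δ) :
    QnP (fun i => toQ (W i)) {l | l ≠ 2} := by
  have : ∀ i, (toQ (W i)).IsElliptic := fun i => ell_toQ (h i).ne_zero
  exact main_pl (fun h' => h' rfl) fun l hl hp => sq_pl h hp hl

/-- Small exponents. -/
theorem main_dt {W : Fin n → WeierstrassCurve ℤ} {L : ℕ} (hL : 3 ≤ L) (h : ∀ i, DtO L (W i)) :
    QnP (fun i => toQ (W i)) {l | L < l} := by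
  have : ∀ i, (toQ (W i)).IsElliptic := fun i => ell_toQ (h i).ne
  refine main_pl (fun h' => ?_) fun l hl hp => dt_pl hL h hp hl
  have : L < 2 := h'
  omega

end NE
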