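import Pool.Agent.Lib.MP_f80667_ag.Sm.Spl

/-! The local theorem for `l = p` odd, all semistable curves, is `NE.loc_ss` in `Sm/Spl.lean`. -/
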