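import Pool.Agent.Lib.MP_f80667_ag.Sp.Iso
import Pool.Agent.Lib.MP_f80667_ag.Pe.Vc
import Pool.Agent.Lib.MP_f80667_ag.Be.PaO
import Pool.Agent.Lib.MP_f80667_ag.Be.PlR

/-! Changes of variables. -/

open ZC BE PE Polynomial CV

namespace NE

section mf

variable {F : Type} [Field F]

/-- A morphism of varieties over `F`: compatible with the reduction at the places over extensions of `F`. -/
structure MF (V V' : Vr F) where
  /-- the map of points -/
  f : ∀ (L : Type) [Field L] [Algebra F L], V.pt L → V'.pt L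
  nat : ∀ (L M : Type) [Field L] [Field M] [Algebra F L] [Algebra F M] (σ : L →ₐ[F] M)
    (x : V.pt L), V'.map σ (f L x) = f M (V.map σ x)
  red : ∀ (K L Ω : Type) [Field K] [Field L] [Field Ω] [Algebra K L] [Algebra K Ω]
    [Algebra F K] [Algebra F L] [Algebra F Ω] [IsScalarTower F K L] [IsScalarTower F K Ω]
    (w : Place K L Ω) (x : V.pt L) (y : V.pt Ω),
    V.red w x y → V'.red w (f L x) (f Ω y)

namespace MF

variable {V V' : Vr F}

/-- Cycles rationally equivalent to `0` go to such cycles. -/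
theorem ratEq (φ : MF V V') (K : Type) [Field K] [Algebra F K] (Ω : Type)
    [Field Ω] [Algebra K Ω] [Algebra F Ω] [IsScalarTower F K Ω] {z : V.pt Ω →₀ ℤ}
    (hz : z ∈ V.ratEq K Ω) : Finsupp.mapDomain (φ.f Ω) z ∈ V'.ratEq K Ω := by
  have h : V.ratEq K Ω ≤ (V'.ratEq K Ω).comap (Finsupp.mapDomain.addMonoidHom (φ.f Ω)) := by
    rw [Vr.ratEq, AddSubgroup.closure_le]
    rintro _ ⟨E, i1, i2, i3, i4, hE, g, x, hg, hx, S, m, y, hS, hv, rfl⟩
    change Finsupp.mapDomain (φ.f Ω) _ ∈ V'.ratEq K Ω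
    rw [Finsupp.mapDomain_finsetSum]
    refine AddSubgroup.subset_closure ⟨E, i1, i2, i3, i4, hE, g, φ.f _ x, hg, fun σ => ?_, S, m,
      fun w => φ.f Ω (y w), hS, fun w hw => ⟨(hv w hw).1, ?_⟩, ?_⟩
    · change V'.map _ (φ.f _ x) = φ.f _ x
      rw [φ.nat]
      exact congrArg (φ.f _) (hx σ)
    · obtain ⟨W, h1, h2, h3⟩ := (hv w hw).2
      exact ⟨W, h1, h2, φ.red _ _ _ W x (y w) h3⟩
    · refine Finset.sum_congr rfl fun w _ => ?_
      rw [Finsupp.mapDomain_single]
  exact h hz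

variable {K : Type} [Field K] [Algebra F K] {Ω : Type} [Field Ω] [Algebra K Ω] [Algebra F Ω]
  [IsScalarTower F K Ω]

theorem act (φ : MF V V') (σ : Ω ≃ₐ[K] Ω) (x : V.pt Ω) :
    V'.act σ (φ.f Ω x) = φ.f Ω (V.act σ x) := φ.nat Ω Ω _ x

/-- Galois invariant cycles go to such cycles. -/
theorem cyc (φ : MF V V') {z : V.pt Ω →₀ ℤ} (hz : z ∈ V.cyc K Ω) :
    Finsupp.mapDomain (φ.f Ω) z ∈ V'.cyc K Ω := by
  intro σ
  rw [← Finsupp.mapDomain_comp]
  have h1 : V'.act σ ∘ φ.f Ω = φ.f Ω ∘ V.act σ := funext fun x => φ.act σ x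
  rw [h1, Finsupp.mapDomain_comp]
  exact congrArg _ (hz σ)

/-- Cycles of degree `0` go to such cycles. -/
theorem D0 (φ : MF V V') {z : V.pt Ω →₀ ℤ} (hz : z ∈ V.D0 K Ω) :
    Finsupp.mapDomain (φ.f Ω) z ∈ V'.D0 K Ω :=
  ⟨φ.cyc hz.1, (Mo.deg _ z).trans hz.2⟩

/-- The product of morphisms. -/
def pi {ι : Type} {V V' : ι → Vr F} (φ : ∀ i, MF (V i) (V' i)) : MF (Vpi V) (Vpi V') where
  f L _ _ x := fun i => (φ i).f L (x i)
  nat L M _ _ _ _ σ x := funext fun i => (φ i).nat L M σ (x i)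
  red K L Ω _ _ _ _ _ _ _ _ _ _ w x y h := fun i => (φ i).red K L Ω w (x i) (y i) (h i)

end MF

/-- Isomorphic factors. -/
theorem dvG_isoF {ι : Type} {V V' : ι → Vr F} {K Ω : Type} [Field K] [Field Ω] [Algebra K Ω]
    [Algebra F K] [Algebra F Ω] [IsScalarTower F K Ω] (φ : ∀ i, MF (V i) (V' i))
    (ψ : ∀ i, MF (V' i) (V i))
    (h : ∀ (i : ι) (L : Type) [Field L] [Algebra F L] (x : (V' i).pt L),
      (φ i).f L ((ψ i).f L x) = x) {m : ℕ} (hd : DvG V K Ω m) : DvG V' K Ω m := by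
  intro z hz ha
  have hid : ∀ x : (Vpi V').pt Ω, (MF.pi φ).f Ω ((MF.pi ψ).f Ω x) = x :=
    fun x => funext fun i => h i Ω (x i)
  have hpr : ∀ (i : ι) (y : (Vpi V').pt Ω →₀ ℤ),
      Finsupp.mapDomain ((pr (V := V) i).f Ω) (Finsupp.mapDomain ((MF.pi ψ).f Ω) y) =
        Finsupp.mapDomain ((ψ i).f Ω) (Finsupp.mapDomain ((pr (V := V') i).f Ω) y) := by
    intro i y
    rw [← Finsupp.mapDomain_comp, ← Finsupp.mapDomain_comp]
    rfl
  have hpr' : ∀ (i : ι) (y : (Vpi V).pt Ω →₀ ℤ),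
      Finsupp.mapDomain ((pr (V := V') i).f Ω) (Finsupp.mapDomain ((MF.pi φ).f Ω) y) =
        Finsupp.mapDomain ((φ i).f Ω) (Finsupp.mapDomain ((pr (V := V) i).f Ω) y) := by
    intro i y
    rw [← Finsupp.mapDomain_comp, ← Finsupp.mapDomain_comp]
    rfl
  obtain ⟨z', hz', ha', hr⟩ := hd (Finsupp.mapDomain ((MF.pi ψ).f Ω) z) ((MF.pi ψ).D0 hz)
    fun i => by
      rw [hpr]
      exact (ψ i).ratEq K Ω (ha i)
  refine ⟨Finsupp.mapDomain ((MF.pi φ).f Ω) z', (MF.pi φ).D0 hz', fun i => ?_, ?_⟩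
  · rw [hpr']
    exact (φ i).ratEq K Ω (ha' i)
  · have h1 := (MF.pi φ).ratEq K Ω hr
    have h2 : Finsupp.mapDomain ((MF.pi φ).f Ω) (Finsupp.mapDomain ((MF.pi ψ).f Ω) z - m • z') =
        z - m • Finsupp.mapDomain ((MF.pi φ).f Ω) z' := by
      have h3 := (Finsupp.mapDomain.addMonoidHom (M := ℤ) ((MF.pi φ).f Ω)).map_sub
        (Finsupp.mapDomain ((MF.pi ψ).f Ω) z) (m • z')
      have h4 := (Finsupp.mapDomain.addMonoidHom (M := ℤ) ((MF.pi φ).f Ω)).map_nsmul m z'
      rw [h4] at h3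
      refine Eq.trans h3 ?_
      congr 1
      change Finsupp.mapDomain ((MF.pi φ).f Ω) (Finsupp.mapDomain ((MF.pi ψ).f Ω) z) = z
      rw [← Finsupp.mapDomain_comp]
      have h5 : (MF.pi φ).f Ω ∘ (MF.pi ψ).f Ω = id := funext hid
      rw [h5, Finsupp.mapDomain_id]
    rw [h2] at h1
    exact h1

end mf

section vc

open WeierstrassCurve

variable {F : Type} [Field F]

private theorem ns_fw (C : VariableChange F) (W : WeierstrassCurve F) {L : Type} [Field L]
    [Algebra F L] {x y : L} (h : (W.baseChange L).toAffine.Nonsingular x y) :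
    ((C • W).baseChange L).toAffine.Nonsingular
      (algebraMap F L ((C.u⁻¹ : Fˣ) : F) ^ 2 * (x - algebraMap F L C.r))
      (algebraMap F L ((C.u⁻¹ : Fˣ) : F) ^ 3 *
        (y - algebraMap F L C.s * (x - algebraMap F L C.r) - algebraMap F L C.t)) := by
  have h1 := vc_ns (C.map (algebraMap F L)) (W.baseChange L) h
  have h2 : (C.map (algebraMap F L)) • (W.baseChange L) = (C • W).baseChange L :=
    map_variableChange _ _ _
  rw [h2] at h1
  exact h1

private theorem ns_bw (C : VariableChange F) (W : WeierstrassCurve F) {L : Type} [Field L]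
    [Algebra F L] {x y : L} (h : ((C • W).baseChange L).toAffine.Nonsingular x y) :
    (W.baseChange L).toAffine.Nonsingular
      (algebraMap F L (C.u : F) ^ 2 * x + algebraMap F L C.r)
      (algebraMap F L (C.u : F) ^ 3 * y + algebraMap F L (C.u : F) ^ 2 * algebraMap F L C.s * x +
        algebraMap F L C.t) := by
  have h2 : (C.map (algebraMap F L)) • (W.baseChange L) = (C • W).baseChange L :=
    map_variableChange _ _ _
  have h' : ((C.map (algebraMap F L)) • (W.baseChange L)).toAffine.Nonsingular x y := by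
    rw [h2]
    exact h
  obtain ⟨φ, hφ⟩ := exists_vc (C.map (algebraMap F L)) (W.baseChange L)
  have hv : algebraMap F L ((C.u⁻¹ : Fˣ) : F) * algebraMap F L (C.u : F) = 1 := by
    rw [← map_mul, Units.inv_mul, map_one]
  obtain ⟨P, hP⟩ := φ.surjective (Pn.aff x y h')
  rcases Pn.cases' P with rfl | ⟨x₁, y₁, h₁, rfl⟩
  · rw [map_zero] at hP
    exact absurd hP.symm (Pn.aff_ne _)
  · rw [hφ] at hP
    obtain ⟨e1, e2⟩ := Pn.aff_inj hP
    have e1' : algebraMap F L ((C.u⁻¹ : Fˣ) : F) ^ 2 * (x₁ - algebraMap F L C.r) = x := e1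
    have e2' : algebraMap F L ((C.u⁻¹ : Fˣ) : F) ^ 3 *
      (y₁ - algebraMap F L C.s * (x₁ - algebraMap F L C.r) - algebraMap F L C.t) = y := e2
    have hv2 : algebraMap F L (C.u : F) ^ 2 * algebraMap F L ((C.u⁻¹ : Fˣ) : F) ^ 2 = 1 := by
      rw [← mul_pow, mul_comm, hv, one_pow]
    have hv3 : algebraMap F L (C.u : F) ^ 3 * algebraMap F L ((C.u⁻¹ : Fˣ) : F) ^ 3 = 1 := by
      rw [← mul_pow, mul_comm, hv, one_pow]
    have e3 : x₁ = algebraMap F L (C.u : F) ^ 2 * x + algebraMap F L C.r := by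
      rw [← e1']
      linear_combination (-(x₁ - algebraMap F L C.r)) * hv2
    have e4 : y₁ = algebraMap F L (C.u : F) ^ 3 * y +
        algebraMap F L (C.u : F) ^ 2 * algebraMap F L C.s * x + algebraMap F L C.t := by
      rw [← e2', ← e1']
      linear_combination (-(y₁ - algebraMap F L C.s * (x₁ - algebraMap F L C.r) -
        algebraMap F L C.t)) * hv3 - algebraMap F L C.s * (x₁ - algebraMap F L C.r) * hv2
    rw [← e3, ← e4]
    exact h₁

private theorem hv_alg {K L Ω : Type} [Field K] [Field L] [Field Ω] [Algebra K L] [Algebra K Ω]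
    [Algebra F K] [Algebra F L] [Algebra F Ω] [IsScalarTower F K L] [IsScalarTower F K Ω]
    (w : Place K L Ω) (a : F) : Hv w (algebraMap F L a) (algebraMap F Ω a) := by
  rw [IsScalarTower.algebraMap_apply F K L, IsScalarTower.algebraMap_apply F K Ω]
  exact ⟨w.mem _, w.res_k _⟩

private noncomputable def fw (C : VariableChange F) (W : WeierstrassCurve F) (L : Type) [Field L]
    [Algebra F L] : Pt W L → Pt (C • W) L
  | .zero => 0
  | .some _ _ h => Pt.aff _ _ (ns_fw C W h)

private noncomputable def bw (C : VariableChange F) (W : WeierstrassCurve F) (L : Type) [Field L]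
    [Algebra F L] : Pt (C • W) L → Pt W L
  | .zero => 0
  | .some _ _ h => Pt.aff _ _ (ns_bw C W h)

private theorem red_iff {W : WeierstrassCurve F} {K L Ω : Type} [Field K] [Field L] [Field Ω]
    [Algebra K L] [Algebra K Ω] [Algebra F L] [Algebra F Ω] (w : Place K L Ω) {x y : L}
    (h : (W.baseChange L).toAffine.Nonsingular x y) (Q : Pt W Ω) :
    Pt.Red W w (Pt.aff x y h) Q ↔ (x ∉ w.V ∧ Q = 0) ∨
      ∃ (x' y' : Ω) (h' : (W.baseChange Ω).toAffine.Nonsingular x' y'),
        Hv w x x' ∧ Hv w y y' ∧ Q = Pt.aff x' y' h' := by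
  constructor
  · rintro (h1 | ⟨hx, hy, h1, h2⟩)
    · exact Or.inl h1
    · exact Or.inr ⟨_, _, h1, ⟨hx, rfl⟩, ⟨hy, rfl⟩, h2⟩
  · rintro (h1 | ⟨x', y', h1, ⟨hx, rfl⟩, ⟨hy, rfl⟩, h2⟩)
    · exact Or.inl h1
    · exact Or.inr ⟨hx, hy, h1, h2⟩

private noncomputable def mfw (C : VariableChange F) (W : WeierstrassCurve F) :
    MF (Ev W) (Ev (C • W)) where
  f L _ _ := fw C W L
  nat := by
    intro L M _ _ _ _ σ x
    change Pt.map (C • W) σ (fw C W L x) = fw C W M (Pt.map W σ x)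
    rcases Pt.cases' (x : Pt W L) with rfl | ⟨x, y, h, rfl⟩
    · rfl
    · refine Pt.aff_congr ?_ ?_
      · simp
      · simp
  red := by
    intro K L Ω _ _ _ _ _ _ _ _ _ _ w P Q hPQ
    change Pt.Red (C • W) w (fw C W L P) (fw C W Ω Q)
    have hPQ' : Pt.Red W w P Q := hPQ
    have hu := hv_alg w ((C.u⁻¹ : Fˣ) : F)
    have hr := hv_alg w C.r
    have hs := hv_alg w C.s
    have ht := hv_alg w C.t
    rcases Pt.cases' (P : Pt W L) with rfl | ⟨x, y, h, rfl⟩
    · have : Q = (0 : Pt W Ω) := hPQ'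
      rw [this]
      rfl
    · rw [red_iff] at hPQ'
      change Pt.Red (C • W) w (Pt.aff _ _ (ns_fw C W h)) _
      rw [red_iff]
      rcases hPQ' with ⟨hx, hQ⟩ | ⟨x', y', h', hx, hy, hQ⟩
      · left
        refine ⟨?_, ?_⟩
        · intro hmem
          apply hx
          have hu' := hv_alg w (C.u : F)
          have h1 : Hv w (algebraMap F L ((C.u⁻¹ : Fˣ) : F) ^ 2 * (x - algebraMap F L C.r))
            (w.res ⟨_, hmem⟩) := ⟨hmem, rfl⟩
          have h2 := ((hu'.pow 2).mul h1).add hr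
          have h3 : algebraMap F L (C.u : F) ^ 2 *
              (algebraMap F L ((C.u⁻¹ : Fˣ) : F) ^ 2 * (x - algebraMap F L C.r)) +
              algebraMap F L C.r = x := by
            have hv : algebraMap F L ((C.u⁻¹ : Fˣ) : F) * algebraMap F L (C.u : F) = 1 := by
              rw [← map_mul, Units.inv_mul, map_one]
            have hv2 : algebraMap F L (C.u : F) ^ 2 * algebraMap F L ((C.u⁻¹ : Fˣ) : F) ^ 2 = 1 := by
              rw [← mul_pow, mul_comm, hv, one_pow]
            linear_combination (x - algebraMap F L C.r) * hv2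
          rw [h3] at h2
          exact h2.1
        · rw [hQ]
          rfl
      · right
        refine ⟨_, _, ns_fw C W h', ?_, ?_, ?_⟩
        · exact (hu.pow 2).mul (hx.sub hr)
        · exact (hu.pow 3).mul ((hy.sub (hs.mul (hx.sub hr))).sub ht)
        · rw [hQ]
          rfl

private noncomputable def mbw (C : VariableChange F) (W : WeierstrassCurve F) :
    MF (Ev (C • W)) (Ev W) where
  f L _ _ := bw C W L
  nat := by
    intro L M _ _ _ _ σ x
    change Pt.map W σ (bw C W L x) = bw C W M (Pt.map (C • W) σ x)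
    rcases Pt.cases' (x : Pt (C • W) L) with rfl | ⟨x, y, h, rfl⟩
    · rfl
    · refine Pt.aff_congr ?_ ?_
      · simp
      · simp
  red := by
    intro K L Ω _ _ _ _ _ _ _ _ _ _ w P Q hPQ
    change Pt.Red W w (bw C W L P) (bw C W Ω Q)
    have hPQ' : Pt.Red (C • W) w P Q := hPQ
    have hu := hv_alg w (C.u : F)
    have hr := hv_alg w C.r
    have hs := hv_alg w C.s
    have ht := hv_alg w C.t
    rcases Pt.cases' (P : Pt (C • W) L) with rfl | ⟨x, y, h, rfl⟩
    · have : Q = (0 : Pt (C • W) Ω) := hPQ'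
      rw [this]
      rfl
    · rw [red_iff] at hPQ'
      change Pt.Red W w (Pt.aff _ _ (ns_bw C W h)) _
      rw [red_iff]
      rcases hPQ' with ⟨hx, hQ⟩ | ⟨x', y', h', hx, hy, hQ⟩
      · left
        refine ⟨?_, ?_⟩
        · intro hmem
          apply hx
          have hu' := hv_alg w ((C.u⁻¹ : Fˣ) : F)
          have h1 : Hv w (algebraMap F L (C.u : F) ^ 2 * x + algebraMap F L C.r)
            (w.res ⟨_, hmem⟩) := ⟨hmem, rfl⟩
          have h2 := (hu'.pow 2).mul (h1.sub hr)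
          have h3 : algebraMap F L ((C.u⁻¹ : Fˣ) : F) ^ 2 *
              (algebraMap F L (C.u : F) ^ 2 * x + algebraMap F L C.r - algebraMap F L C.r) = x := by
            have hv : algebraMap F L ((C.u⁻¹ : Fˣ) : F) * algebraMap F L (C.u : F) = 1 := by
              rw [← map_mul, Units.inv_mul, map_one]
            have hv2 : algebraMap F L (C.u : F) ^ 2 * algebraMap F L ((C.u⁻¹ : Fˣ) : F) ^ 2 = 1 := by
              rw [← mul_pow, mul_comm, hv, one_pow]
            linear_combination x * hv2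
          rw [h3] at h2
          exact h2.1
        · rw [hQ]
          rfl
      · right
        refine ⟨_, _, ns_bw C W h', ?_, ?_, ?_⟩
        · exact ((hu.pow 2).mul hx).add hr
        · exact (((hu.pow 3).mul hy).add (((hu.pow 2).mul hs).mul hx)).add ht
        · rw [hQ]
          rfl

end vc

/-- The isomorphism given by a change of variables. -/
theorem exists_movc {F : Type} [Field F] (C : WeierstrassCurve.VariableChange F)
    (W : WeierstrassCurve F) :
    ∃ (φ : MF (Ev (C • W)) (Ev W)) (ψ : MF (Ev W) (Ev (C • W))),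
      (∀ (L : Type) [Field L] [Algebra F L] (x : (Ev W).pt L), φ.f L (ψ.f L x) = x) ∧
      ∀ (L : Type) [Field L] [Algebra F L] (x : (Ev (C • W)).pt L), ψ.f L (φ.f L x) = x := by
  refine ⟨mbw C W, mfw C W, ?_, ?_⟩
  · intro L _ _ x
    change bw C W L (fw C W L x) = x
    have hv : algebraMap F L ((C.u⁻¹ : Fˣ) : F) * algebraMap F L (C.u : F) = 1 := by
      rw [← map_mul, Units.inv_mul, map_one]
    have hv2 : algebraMap F L (C.u : F) ^ 2 * algebraMap F L ((C.u⁻¹ : Fˣ) : F) ^ 2 = 1 := by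
      rw [← mul_pow, mul_comm, hv, one_pow]
    have hv3 : algebraMap F L (C.u : F) ^ 3 * algebraMap F L ((C.u⁻¹ : Fˣ) : F) ^ 3 = 1 := by
      rw [← mul_pow, mul_comm, hv, one_pow]
    rcases Pt.cases' (x : Pt W L) with rfl | ⟨x, y, h, rfl⟩
    · rfl
    · refine Pt.aff_congr ?_ ?_
      · linear_combination (x - algebraMap F L C.r) * hv2
      · linear_combination (y - algebraMap F L C.s * (x - algebraMap F L C.r) -
          algebraMap F L C.t) * hv3 + algebraMap F L C.s * (x - algebraMap F L C.r) * hv2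
  · intro L _ _ x
    change fw C W L (bw C W L x) = x
    have hv : algebraMap F L ((C.u⁻¹ : Fˣ) : F) * algebraMap F L (C.u : F) = 1 := by
      rw [← map_mul, Units.inv_mul, map_one]
    have hv2 : algebraMap F L (C.u : F) ^ 2 * algebraMap F L ((C.u⁻¹ : Fˣ) : F) ^ 2 = 1 := by
      rw [← mul_pow, mul_comm, hv, one_pow]
    have hv3 : algebraMap F L (C.u : F) ^ 3 * algebraMap F L ((C.u⁻¹ : Fˣ) : F) ^ 3 = 1 := by
      rw [← mul_pow, mul_comm, hv, one_pow]
    rcases Pt.cases' (x : Pt (C • W) L) with rfl | ⟨x, y, h, rfl⟩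
    · rfl
    · refine Pt.aff_congr ?_ ?_
      · linear_combination x * hv2
      · linear_combination y * hv3

/-- Changes of variables. -/
theorem dvG_vc {F : Type} [Field F] {n : ℕ} {K Ω : Type} [Field K] [Field Ω] [Algebra K Ω]
    [Algebra F K] [Algebra F Ω] [IsScalarTower F K Ω] {W : Fin n → WeierstrassCurve F}
    (C : Fin n → WeierstrassCurve.VariableChange F) {m : ℕ}
    (hd : DvG (fun i => Ev (C i • W i)) K Ω m) : DvG (fun i => Ev (W i)) K Ω m := by
  choose φ ψ h1 h2 using fun i => exists_movc (C i) (W i)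
  exact dvG_isoF φ ψ h1 hd

end NE
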