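import Pool.Agent.Lib.MP_f80667_ag.Cv.Hat
import Pool.Agent.Lib.MP_f80667_ag.Kf.Dsf

/-! Products of elliptic curves over number fields: the definitions for the statement. -/

open ZC BE PE CV IsDedekindDomain NumberField

namespace NE

/-- `W` has good or multiplicative reduction at `v`: it has an equation with coefficients integral at `v` whose `Δ` or `c₄` is a
unit at `v`. -/
def SsV {F : Type} [Field F] [NumberField F] (v : HeightOneSpectrum (𝓞 F)) (W : WeierstrassCurve F) : Prop :=
  ∃ C : WeierstrassCurve.VariableChange F,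
    (v.valuation F (C • W).a₁ ≤ 1 ∧ v.valuation F (C • W).a₂ ≤ 1 ∧ v.valuation F (C • W).a₃ ≤ 1 ∧
      v.valuation F (C • W).a₄ ≤ 1 ∧ v.valuation F (C • W).a₆ ≤ 1) ∧
    (v.valuation F (C • W).Δ = 1 ∨ v.valuation F (C • W).c₄ = 1)

/-- The conditions on the prime number `l`: it is odd and unramified in `F`, the curves have good or multiplicative reduction at the
places above `l`, and for `l = 3` at all places; if the valuation of the `j`-invariant of a curve at `v` is `- n`, `n > 0`, then `l` does not divide `n`. -/
structure Plc {F : Type} [Field F] [NumberField F] {ι : Type} (W : ι → WeierstrassCurve F)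
    [∀ i, (W i).IsElliptic] (l : ℕ) : Prop where
  pr : l.Prime
  odd : l ≠ 2
  unr : ∀ v : HeightOneSpectrum (𝓞 F), v.valuation F (l : F) < 1 →
    v.valuation F (l : F) = WithZero.exp (-1 : ℤ)
  ss : ∀ v : HeightOneSpectrum (𝓞 F), v.valuation F (l : F) < 1 ∨ l = 3 → ∀ i, SsV v (W i)
  jv : ∀ (v : HeightOneSpectrum (𝓞 F)) (i : ι) (n : ℕ),
    v.valuation F (W i).j = WithZero.exp (n : ℤ) → l ∣ n → n = 0

/-- The product of the curves. -/
noncomputable def En {F : Type} [Field F] {n : ℕ} (W : Fin n → WeierstrassCurve F) : Vr F := Vpi fun i => Ev (W i)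

/-- The statement for the product `X` of the curves at the prime numbers in `P`: the kernel `F²_A(X)` of the push-forwards of
`F^1_A(X)` to the curves is divisible by all `m ≠ 0` with all prime factors in `P`; the components at the prime numbers in `P`
of an element `z` of the completion of `F^1_A(X)` are in the image of `Δ` if and only if this holds for the
push-forwards of `z` to the curves. -/
def QnP {F : Type} [Field F] [NumberField F] {n : ℕ} (W : Fin n → WeierstrassCurve F) (P : Set ℕ) : Prop :=
  (∀ m : ℕ, m ≠ 0 → Sf P m → ∀ c : Fam (En W), AlbPA c → ∃ c' : Fam (En W), AlbPA c' ∧ c.cl = m • c'.cl) ∧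
    ∀ (z : LHat (FA (En W))) (z' : ∀ i, LHat (FA (Ev (W i)))),
      (∀ i, IsPs i z (z' i)) → (ImDeS P z ↔ ∀ i, ImDeS P (z' i))

/-- The number of the families of `n` nonsingular equations in `Eqs N` whose product satisfies `QnP` for `P`. -/
noncomputable def Nn (n N : ℕ) (P : Set ℕ) : ℕ :=
  {W : Fin n → WeierstrassCurve ℤ | (∀ i, W i ∈ Eqs N ∧ (W i).Δ ≠ 0) ∧ QnP (fun i => toQ (W i)) P}.ncard

end NE
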