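import Pool.Agent.Lib.MP_f80667_ag.Sp.Sq
import Pool.Agent.Lib.MP_f80667_ag.Nf.Dtn
import Pool.Agent.Lib.MP_f80667_ag.Nf.Dsn

/-! The proportions of the conditions. -/

open PE

namespace NE

private theorem dn_one {N : ℕ} {P : (Fin 1 → WeierstrassCurve ℤ) → Prop}
    {Q : WeierstrassCurve ℤ → Prop} (h : ∀ W, P W → Q (W 0)) :
    {W : Fin 1 → WeierstrassCurve ℤ | (∀ i, W i ∈ Eqs N) ∧ P W}.ncard ≤
      {A : WeierstrassCurve ℤ | A ∈ Eqs N ∧ Q A}.ncard := by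
  refine Set.ncard_le_ncard_of_injOn (fun W => W 0) (fun W hW => ⟨hW.1 0, h W hW.2⟩) ?_
    ((eqs_fin N).subset fun A hA => hA.1)
  intro W _ W' _ e
  funext i
  rw [Subsingleton.elim i 0]
  exact e

/-- Proof: `dtN_dens` for `n = 1`; the sets `{W : Fin 1 → _ | …}` and `{A | …}` are in bijection (`W ↦ W 0`). -/
theorem dtO_dens {ε : ℝ} (hε : 0 < ε) (N₁ : ℕ) : ∃ L : ℕ, N₁ ≤ L ∧ ∃ N₀ : ℕ, ∀ N ≥ N₀,
    (1 - ε) * ((Eqs N).ncard : ℝ) ≤ ({A : WeierstrassCurve ℤ | A ∈ Eqs N ∧ DtO L A}.ncard : ℝ) := by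
  obtain ⟨L, hL, N₀, h⟩ := dtN_dens 1 hε N₁
  refine ⟨L, hL, N₀, fun N hN => ?_⟩
  have h1 := h N hN
  rw [pow_one] at h1
  refine h1.trans ?_
  have h3 : ∀ W : Fin 1 → WeierstrassCurve ℤ, DtN L W → DtO L (W 0) := fun W hW => ⟨hW.lo 0, hW.hi 0⟩
  exact_mod_cast dn_one h3

/-- Proof: `okn_dens` for `n = 1` (`OkN.sf`). -/
theorem sqf_dens : ∃ c : ℝ, 0 < c ∧ ∃ N₀ : ℕ, ∀ N ≥ N₀,
    c * ((Eqs N).ncard : ℝ) ≤
      ({A : WeierstrassCurve ℤ | A ∈ Eqs N ∧ Squarefree A.Δ}.ncard : ℝ) := by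
  obtain ⟨c, hc, N₀, h⟩ := okn_dens 1
  refine ⟨c, hc, N₀, fun N hN => ?_⟩
  have h1 := h N hN
  rw [pow_one] at h1
  refine h1.trans ?_
  have h3 : ∀ W : Fin 1 → WeierstrassCurve ℤ, OkN W → Squarefree (W 0).Δ := fun W hW => by
    have h2 := hW.sf
    rwa [Fin.prod_univ_one] at h2
  exact_mod_cast dn_one h3

end NE
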