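import Pool.Agent.Lib.MP_f80667_ag.Sp.Gl
import Pool.Agent.Lib.MP_f80667_ag.Sp.Fin
import Pool.Agent.Lib.MP_f80667_ag.Sp.Dn

/-! Products of elliptic curves: the theorem. -/

open ZC BE PE CV IsDedekindDomain NumberField

namespace NE

variable {n : ℕ}

private theorem fd_univ {F : Type} [Field F] [NumberField F] {V : Vr F} (z : LHat (FA V)) :
    ImDeS Set.univ z ↔ ImDe z :=
  ⟨fun ⟨x, hx⟩ => ⟨x, fun m => hx m fun _ _ _ => Set.mem_univ _⟩, fun ⟨x, hx⟩ => ⟨x, fun m _ => hx m⟩⟩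

/-- All prime numbers. -/
theorem qn_ok {W : Fin n → WeierstrassCurve ℤ} (h : OkN W) : QnP (fun i => toQ (W i)) Set.univ := by
  obtain ⟨h1, h2⟩ := main_n h
  refine ⟨fun m hm _ => h1 m hm, fun z z' hz => ?_⟩
  rw [fd_univ]
  exact (h2 z z' hz).trans (forall_congr' fun i => (fd_univ (z' i)).symm)

/-- A positive proportion, all prime numbers. -/
theorem nn_pos (n : ℕ) : ∃ c : ℝ, 0 < c ∧ ∃ N₀ : ℕ, ∀ N ≥ N₀,
    c * ((Eqs N).ncard : ℝ) ^ n ≤ (Nn n N Set.univ : ℝ) := by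
  obtain ⟨c, hc, N₀, h⟩ := okn_dens n
  refine ⟨c, hc, N₀, fun N hN => (h N hN).trans ?_⟩
  refine Nat.cast_le.2 (Set.ncard_le_ncard (fun W hW => ⟨fun i => ⟨hW.1 i, hW.2.ne i⟩, qn_ok hW.2⟩) ?_)
  exact (Set.Finite.pi' fun _ : Fin n => eqs_fin N).subset fun W hW i => (hW.1 i).1

/-- The proportion `1 - ε` of the curves, the prime numbers greater than `L(ε)`. -/
theorem qn_eps (ε : ℝ) (hε : 0 < ε) : ∃ (L N₀ : ℕ) (S : Set (WeierstrassCurve ℤ)),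
    (∀ N ≥ N₀, (1 - ε) * ((Eqs N).ncard : ℝ) ≤ ((Eqs N ∩ S).ncard : ℝ)) ∧ (∀ A ∈ S, A.Δ ≠ 0) ∧
    ∀ (n : ℕ) (W : Fin n → WeierstrassCurve ℤ), (∀ i, W i ∈ S) →
      QnP (fun i => toQ (W i)) {l | L < l} := by
  obtain ⟨L, hL, N₀, h⟩ := dtO_dens hε 3
  exact ⟨L, N₀, {A | DtO L A}, h, fun A hA => hA.ne, fun n W hW => main_dt hL hW⟩

end NE
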