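import Pool.Agent.Lib.MP_f80667_ag.Sp.Gl
import Pool.Agent.Lib.MP_f80667_ag.Km.Gl
import Pool.Agent.Lib.MP_f80667_ag.Km.FdD

/-! The theorem for Kummer varieties of products of elliptic curves over number fields. -/

open ZC BE PE NE IsDedekindDomain NumberField CV

namespace KM

variable {F : Type} [Field F] [NumberField F] {n : ℕ} [NeZero n]

/-- **The theorem for number fields.** -/
theorem main_plK {W : Fin n → WeierstrassCurve F} [∀ i, (W i).IsElliptic] {P : Set ℕ} (h2 : 2 ∉ P)
    (h : ∀ l ∈ P, l.Prime → Plc W l) : QP (Kum fun i => (W i).Ψ₂Sq) P :=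
  main_Ku h2 fun l hl hp v => dv_pl (h l hl hp) v

theorem main_plcK (W : Fin n → WeierstrassCurve F) [∀ i, (W i).IsElliptic] :
    QP (Kum fun i => (W i).Ψ₂Sq) {l | Plc W l} :=
  main_plK (fun h' => Plc.odd h' rfl) fun _ hl _ => hl

/-- Squarefree discriminants. -/
theorem main_sqK {W : Fin n → WeierstrassCurve ℤ} (h : ∀ i, Squarefree (W i).Δ) :
    QP (Kn W) {l | l ≠ 2} := by
  have : ∀ i, (toQ (W i)).IsElliptic := fun i => ell_toQ (h i).ne_zero
  exact main_plK (W := fun i => toQ (W i)) (fun h' => h' rfl) fun l hl hp => sq_pl h hp hl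

/-- Small exponents. -/
theorem main_dtK {W : Fin n → WeierstrassCurve ℤ} {L : ℕ} (hL : 3 ≤ L) (h : ∀ i, DtO L (W i)) :
    QP (Kn W) {l | L < l} := by
  have : ∀ i, (toQ (W i)).IsElliptic := fun i => ell_toQ (h i).ne
  refine main_plK (W := fun i => toQ (W i)) (fun h' => ?_) fun l hl hp => dt_pl hL h hp hl
  have : L < 2 := h'
  omega

end KM
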