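import Pool.Agent.Lib.MP_f80667_ag.Cv.Tc
import Pool.Agent.Lib.MP_f80667_ag.Cv.Mo

/-! Isomorphic factors. -/

open ZC BE PE Polynomial CV

namespace NE

section iso

variable {F : Type} [Field F] {ι : Type} {V V' : ι → Vr F}
  {K Ω : Type} [Field K] [Field Ω] [Algebra K Ω] [Algebra F K] [Algebra F Ω]
  [IsScalarTower F K Ω]

/-- The product of morphisms. -/
private def iso_pi {V V' : ι → Vr F} (φ : ∀ i, Mo (V i) (V' i)) : Mo (Vpi V) (Vpi V') where
  f L _ _ x := fun i => (φ i).f L (x i)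
  nat L M _ _ _ _ σ x := funext fun i => (φ i).nat L M σ (x i)
  red K L Ω _ _ _ _ _ _ _ w x y h := fun i => (φ i).red K L Ω w (x i) (y i) (h i)

/-- Isomorphic factors. Proof: the product morphisms `Φ : Mo (Vpi V) (Vpi V')`, `Ψ : Mo (Vpi V') (Vpi V)` (factor by factor) with `Φ ∘ Ψ = id`; `Mo.D0`, `Mo.ratEq` (`Cv/Mo.lean`). -/
theorem dvG_iso (φ : ∀ i, Mo (V i) (V' i)) (ψ : ∀ i, Mo (V' i) (V i))
    (h : ∀ (i : ι) (L : Type) [Field L] [Algebra F L] (x : (V' i).pt L),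
      (φ i).f L ((ψ i).f L x) = x) {m : ℕ} (hd : DvG V K Ω m) : DvG V' K Ω m := by
  intro z hz ha
  have hid : ∀ x : (Vpi V').pt Ω, (iso_pi φ).f Ω ((iso_pi ψ).f Ω x) = x :=
    fun x => funext fun i => h i Ω (x i)
  have hpr : ∀ (i : ι) (y : (Vpi V').pt Ω →₀ ℤ),
      Finsupp.mapDomain ((pr (V := V) i).f Ω) (Finsupp.mapDomain ((iso_pi ψ).f Ω) y) =
        Finsupp.mapDomain ((ψ i).f Ω) (Finsupp.mapDomain ((pr (V := V') i).f Ω) y) := by
    intro i y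
    rw [← Finsupp.mapDomain_comp, ← Finsupp.mapDomain_comp]
    rfl
  have hpr' : ∀ (i : ι) (y : (Vpi V).pt Ω →₀ ℤ),
      Finsupp.mapDomain ((pr (V := V') i).f Ω) (Finsupp.mapDomain ((iso_pi φ).f Ω) y) =
        Finsupp.mapDomain ((φ i).f Ω) (Finsupp.mapDomain ((pr (V := V) i).f Ω) y) := by
    intro i y
    rw [← Finsupp.mapDomain_comp, ← Finsupp.mapDomain_comp]
    rfl
  obtain ⟨z', hz', ha', hr⟩ := hd (Finsupp.mapDomain ((iso_pi ψ).f Ω) z) ((iso_pi ψ).D0 hz)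
    fun i => by
      rw [hpr]
      exact (ψ i).ratEq K Ω (ha i)
  refine ⟨Finsupp.mapDomain ((iso_pi φ).f Ω) z', (iso_pi φ).D0 hz', fun i => ?_, ?_⟩
  · rw [hpr']
    exact (φ i).ratEq K Ω (ha' i)
  · have h1 := (iso_pi φ).ratEq K Ω hr
    have h2 : Finsupp.mapDomain ((iso_pi φ).f Ω) (Finsupp.mapDomain ((iso_pi ψ).f Ω) z - m • z') =
        z - m • Finsupp.mapDomain ((iso_pi φ).f Ω) z' := by
      have h3 := (Finsupp.mapDomain.addMonoidHom (M := ℤ) ((iso_pi φ).f Ω)).map_sub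
        (Finsupp.mapDomain ((iso_pi ψ).f Ω) z) (m • z')
      have h4 := (Finsupp.mapDomain.addMonoidHom (M := ℤ) ((iso_pi φ).f Ω)).map_nsmul m z'
      rw [h4] at h3
      refine Eq.trans h3 ?_
      congr 1
      change Finsupp.mapDomain ((iso_pi φ).f Ω) (Finsupp.mapDomain ((iso_pi ψ).f Ω) z) = z
      rw [← Finsupp.mapDomain_comp]
      have h5 : (iso_pi φ).f Ω ∘ (iso_pi ψ).f Ω = id := funext hid
      rw [h5, Finsupp.mapDomain_id]
    rw [h2] at h1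
    exact h1

end iso

end NE
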