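import Pool.Agent.Lib.MP_f80667_ag.Sp.PoB
import Pool.Agent.Lib.MP_f80667_ag.Sp.Def
import Pool.Agent.Lib.MP_f80667_ag.Nf.Gln

/-! The places of a number field. -/

open ZC BE PE Polynomial IntermediateField IsDedekindDomain NumberField CV

namespace NE

variable {F : Type} [Field F] [NumberField F] {n : ℕ}

/-- The valuation and the norm. -/
private theorem sp_le {v : HeightOneSpectrum (𝓞 F)} {L : Ld (FK F v) (AlgebraicClosure (FK F v))}
    {c : ℝ} (h0 : 0 < c) (h1 : c < 1)
    (hL : ∀ (x : F) (n : ℤ), v.valuation F x = WithZero.exp (-n) → L.nm (algebraMap F _ x) = c ^ n)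
    {x : F} (hx : v.valuation F x ≤ 1) : L.nm (algebraMap F _ x) ≤ 1 := by
  by_cases h : x = 0
  · rw [h, map_zero, L.zero]
    exact zero_le_one
  · have h2 : v.valuation F x ≠ 0 := (Valuation.ne_zero_iff _).2 h
    have h3 : v.valuation F x = WithZero.exp (-(-WithZero.log (v.valuation F x))) := by
      rw [neg_neg, WithZero.exp_log h2]
    rw [hL x _ h3]
    have h4 : 0 ≤ -WithZero.log (v.valuation F x) := by
      rw [h3, ← WithZero.exp_zero, WithZero.exp_le_exp] at hx
      omega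
    obtain ⟨m, hm⟩ := Int.eq_ofNat_of_zero_le h4
    rw [hm, zpow_natCast]
    exact pow_le_one₀ h0.le h1.le

/-- The valuation and the norm. -/
private theorem sp_lt {v : HeightOneSpectrum (𝓞 F)} {L : Ld (FK F v) (AlgebraicClosure (FK F v))}
    {c : ℝ} (h0 : 0 < c) (h1 : c < 1)
    (hL : ∀ (x : F) (n : ℤ), v.valuation F x = WithZero.exp (-n) → L.nm (algebraMap F _ x) = c ^ n)
    {x : F} (hx : v.valuation F x < 1) : L.nm (algebraMap F _ x) < 1 := by
  by_cases h : x = 0
  · rw [h, map_zero, L.zero]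
    exact zero_lt_one
  · have h2 : v.valuation F x ≠ 0 := (Valuation.ne_zero_iff _).2 h
    have h3 : v.valuation F x = WithZero.exp (-(-WithZero.log (v.valuation F x))) := by
      rw [neg_neg, WithZero.exp_log h2]
    rw [hL x _ h3]
    have h4 : 0 < -WithZero.log (v.valuation F x) := by
      rw [h3, ← WithZero.exp_zero, WithZero.exp_lt_exp] at hx
      omega
    obtain ⟨m, hm⟩ := Int.eq_ofNat_of_zero_le h4.le
    rw [hm] at h4
    rw [hm, zpow_natCast]
    exact pow_lt_one₀ h0.le h1 (by omega)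

/-- The valuation and the norm. -/
private theorem sp_one {v : HeightOneSpectrum (𝓞 F)} {L : Ld (FK F v) (AlgebraicClosure (FK F v))}
    {c : ℝ}
    (hL : ∀ (x : F) (n : ℤ), v.valuation F x = WithZero.exp (-n) → L.nm (algebraMap F _ x) = c ^ n)
    {x : F} (hx : v.valuation F x = 1) : L.nm (algebraMap F _ x) = 1 := by
  have h1 := hL x 0 (by rw [hx, neg_zero, WithZero.exp_zero])
  rw [h1, zpow_zero]

/-- The discriminant of an integral equation. -/
private theorem sp_disc {v : HeightOneSpectrum (𝓞 F)} {W : WeierstrassCurve F}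
    (hi : v.valuation F W.a₁ ≤ 1 ∧ v.valuation F W.a₂ ≤ 1 ∧ v.valuation F W.a₃ ≤ 1 ∧
      v.valuation F W.a₄ ≤ 1 ∧ v.valuation F W.a₆ ≤ 1) : v.valuation F W.Δ ≤ 1 := by
  obtain ⟨h1, h2, h3, h4, h6⟩ := hi
  have hn : ∀ m : ℕ, (m : F) ∈ (v.valuation F).integer := fun m => natCast_mem _ m
  have m1 : W.a₁ ∈ (v.valuation F).integer := h1
  have m2 : W.a₂ ∈ (v.valuation F).integer := h2
  have m3 : W.a₃ ∈ (v.valuation F).integer := h3
  have m4 : W.a₄ ∈ (v.valuation F).integer := h4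
  have m6 : W.a₆ ∈ (v.valuation F).integer := h6
  have n2 : (2 : F) ∈ (v.valuation F).integer := by exact_mod_cast hn 2
  have n4 : (4 : F) ∈ (v.valuation F).integer := by exact_mod_cast hn 4
  have n8 : (8 : F) ∈ (v.valuation F).integer := by exact_mod_cast hn 8
  have n9 : (9 : F) ∈ (v.valuation F).integer := by exact_mod_cast hn 9
  have n27 : (27 : F) ∈ (v.valuation F).integer := by exact_mod_cast hn 27
  have b2 : W.b₂ ∈ (v.valuation F).integer := add_mem (pow_mem m1 2) (mul_mem n4 m2)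
  have b4 : W.b₄ ∈ (v.valuation F).integer := add_mem (mul_mem n2 m4) (mul_mem m1 m3)
  have b6 : W.b₆ ∈ (v.valuation F).integer := add_mem (pow_mem m3 2) (mul_mem n4 m6)
  have b8 : W.b₈ ∈ (v.valuation F).integer :=
    sub_mem (add_mem (sub_mem (add_mem (mul_mem (pow_mem m1 2) m6)
      (mul_mem (mul_mem n4 m2) m6)) (mul_mem (mul_mem m1 m3) m4)) (mul_mem m2 (pow_mem m3 2)))
      (pow_mem m4 2)
  have hd : W.Δ ∈ (v.valuation F).integer :=
    add_mem (sub_mem (sub_mem (mul_mem (neg_mem (pow_mem b2 2)) b8) (mul_mem n8 (pow_mem b4 3)))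
      (mul_mem n27 (pow_mem b6 2))) (mul_mem (mul_mem (mul_mem n9 b2) b4) b6)
  exact hd

/-- The reduction of the equation. Proof: if `v(Δ) = 1` then `Gd`; otherwise `v(Δ) < 1` (the coefficients are integral) and `v(c₄) = 1`: `Md`. -/
theorem gd_md {v : HeightOneSpectrum (𝓞 F)} {W : WeierstrassCurve F}
    {L : Ld (FK F v) (AlgebraicClosure (FK F v))} {c : ℝ} (h0 : 0 < c) (h1 : c < 1)
    (hL : ∀ (x : F) (n : ℤ), v.valuation F x = WithZero.exp (-n) → L.nm (algebraMap F _ x) = c ^ n)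
    (hi : v.valuation F W.a₁ ≤ 1 ∧ v.valuation F W.a₂ ≤ 1 ∧ v.valuation F W.a₃ ≤ 1 ∧
      v.valuation F W.a₄ ≤ 1 ∧ v.valuation F W.a₆ ≤ 1)
    (h : v.valuation F W.Δ = 1 ∨ v.valuation F W.c₄ = 1) : L.Gd W ∨ L.Md W := by
  have hit : L.It W := ⟨sp_le h0 h1 hL hi.1, sp_le h0 h1 hL hi.2.1, sp_le h0 h1 hL hi.2.2.1,
    sp_le h0 h1 hL hi.2.2.2.1, sp_le h0 h1 hL hi.2.2.2.2⟩
  by_cases hΔ : v.valuation F W.Δ = 1
  · exact Or.inl ⟨hit, sp_one hL hΔ⟩
  · exact Or.inr ⟨hit, sp_lt h0 h1 hL (lt_of_le_of_ne (sp_disc hi) hΔ),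
      sp_one hL (h.resolve_left hΔ)⟩

/-- `Jv` does not depend on the equation: the `j`-invariant of `C • W` is that of `W` (`WeierstrassCurve.variableChange_j`). -/
theorem jv_vc {v : HeightOneSpectrum (𝓞 F)} {l : ℕ} {W : WeierstrassCurve F} [W.IsElliptic]
    (C : WeierstrassCurve.VariableChange F) (h : Jv l v W) : Jv l v (C • W) := by
  intro n hn hln
  rw [WeierstrassCurve.variableChange_j] at hn
  exact h n hn hln

/-- The places which are not above `l`. Proof: `exists_ldE`, `jc_of`, `loc_po` with `po_five`, `po_ss` (`gd_md`), `dvP_iff`. -/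
theorem dv_ne {W : Fin n → WeierstrassCurve F} [∀ i, (W i).IsElliptic]
    {v : HeightOneSpectrum (𝓞 F)} {l : ℕ} (hl : l.Prime) (h2 : l ≠ 2)
    (hs : l = 3 → ∀ i, SsV v (W i)) (hv : v.valuation F (l : F) = 1) (hj : ∀ i, Jv l v (W i)) :
    DvP (FK F v) (fun i => Ev (W i)) l := by
  have hc : CharZero (FK F v) := charZero_of_injective_algebraMap (algebraMap F (FK F v)).injective
  obtain ⟨L, c, hc0, hc1, hL, hL'⟩ := exists_ldE v
  have hlp : l ≠ L.p := by
    intro h
    have h1 := sp_one hL hv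
    rw [map_natCast, h] at h1
    exact absurd L.lt (not_lt.2 h1.ge)
  have hpo : ∀ i, Po L l (W i) := by
    intro i
    rcases le_or_gt 5 l with h5 | h5
    · exact po_five L (W i) hl h5
    · have h3 : l = 3 := by
        have h4 : l ≠ 4 := by
          rintro rfl
          exact absurd hl (by norm_num)
        have h6 := hl.two_le
        omega
      obtain ⟨C, hi, h⟩ := hs h3 i
      exact po_ss L hl h2 (W i) C (gd_md hc0 hc1 hL hi h)
  exact (dvP_iff (FK F v) l).2 (loc_po L hl hpo hlp fun i => jc_of (hj i) hc0 hc1 hL hL')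

end NE
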