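import Pool.Agent.Lib.MP_f80667_ag.Sp.Nf
import Pool.Agent.Lib.MP_f80667_ag.Sp.Vc
import Pool.Agent.Lib.MP_f80667_ag.Sp.Ls

/-! The places above `l`. -/

open ZC BE PE Polynomial IntermediateField IsDedekindDomain NumberField CV

namespace NE

variable {F : Type} [Field F] [NumberField F] {n : ℕ}

/-- The places above `l`. Proof: `exists_ld` for `p = l` and `exists_ldE` (the norm `L` of `exists_ld` is `c ^ n` with `c = nm p`, and the norms of the elements of `F_v` are powers of `c` because `p` is a uniformizer), `gd_md`, `jv_vc`, `jc_of`, `loc_ss` for `C i • W i`, `dvG_vc`, `dvP_iff`. -/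
theorem dv_eq {W : Fin n → WeierstrassCurve F} [∀ i, (W i).IsElliptic]
    {v : HeightOneSpectrum (𝓞 F)} {l : ℕ} (hl : l.Prime) (h2 : l ≠ 2)
    (hv : v.valuation F (l : F) = WithZero.exp (-1 : ℤ)) (hs : ∀ i, SsV v (W i))
    (hj : ∀ i, Jv l v (W i)) : DvP (FK F v) (fun i => Ev (W i)) l := by
  obtain ⟨L, hLu, hLp, hL⟩ := exists_ld F v l hl hv
  have hc : CharZero (FK F v) := charZero_of_injective_algebraMap (algebraMap F (FK F v)).injective
  have hp0 := L.p_pos
  have hp1 := L.lt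
  choose C hi h using hs
  have hg : ∀ i, L.Gd (C i • W i) ∨ L.Md (C i • W i) := fun i => gd_md hp0 hp1 hL (hi i) (h i)
  have hj' : ∀ i, L.Jc L.p (C i • W i) := by
    intro i
    rw [hLp]
    exact jc_of (jv_vc (C i) (hj i)) hp0 hp1 hL L.unr
  have hp2 : L.p ≠ 2 := by
    rw [hLp]
    exact h2
  have hd : DvG (fun i => Ev (C i • W i)) (FK F v) (AlgebraicClosure (FK F v)) L.p :=
    loc_ss L hp2 hg hj'
  rw [hLp] at hd
  exact (dvP_iff (FK F v) l).2 (dvG_vc C hd)

end NE
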