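import Pool.Agent.Lib.MP_f80667_ag.Nf.SngB

/-!
The local theorem for `l` different from the residue characteristic, for curves which are semistable over an extension of degree prime to `l`.
-/

open ZC BE PE Polynomial IntermediateField CV

namespace NE

variable {F : Type} [Field F] {K Ω : Type} [Field K] [CharZero K] [Field Ω] [Algebra K Ω]
  [Algebra F K] [Algebra F Ω] [IsScalarTower F K Ω] [IsAlgClosure K Ω]

/-- The curve is semistable (good or split multiplicative) over an extension of degree prime to `l`. -/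
def Po (L : Ld K Ω) (l : ℕ) (W : WeierstrassCurve F) : Prop :=
  ∃ M : IntermediateField K Ω, FiniteDimensional K M ∧ Cp l M ∧
    ∀ M' : IntermediateField K Ω, M ≤ M' → ∀ (L' : Ld M' Ω), (∀ x, L'.nm x = L.nm x) →
      ∃ (W' : WeierstrassCurve M') (φ : Pt W Ω ≃+ Pt W' Ω), W'.IsElliptic ∧ L'.Gs W' ∧
        (∀ (σ : Ω ≃ₐ[M'] Ω) (P : Pt W Ω), φ (σ.restrictScalars K • P) = σ • φ P) ∧
        algebraMap M' Ω W'.c₄ ^ 3 * algebraMap F Ω W.Δ =
          algebraMap F Ω W.c₄ ^ 3 * algebraMap M' Ω W'.Δ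

theorem po_five (L : Ld K Ω) (W : WeierstrassCurve F) [W.IsElliptic] {l : ℕ} (hl : l.Prime)
    (h5 : 5 ≤ l) : Po L l W := by
  obtain ⟨M, h1, h2, h3⟩ := Ld.pot_ssE L W
  exact ⟨M, h1, h2 l hl h5, h3⟩

section sym

variable {ι : Type} [DecidableEq ι] [Fintype ι]

omit [DecidableEq ι] in
/-- The compositum of finitely many extensions of degree prime to `l`. -/
private theorem po_sup [Nonempty ι] {l : ℕ} (M : ι → IntermediateField K Ω)
    (hf : ∀ i, FiniteDimensional K (M i)) (hc : ∀ i, Cp l (M i)) :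
    ∃ M₀ : IntermediateField K Ω, FiniteDimensional K M₀ ∧ Cp l M₀ ∧ ∀ i, M i ≤ M₀ := by
  classical
  have key : ∀ s : Finset ι, ∃ M₀ : IntermediateField K Ω, FiniteDimensional K M₀ ∧ Cp l M₀ ∧
      ∀ i ∈ s, M i ≤ M₀ := by
    intro s
    induction s using Finset.induction_on with
    | empty =>
      obtain ⟨i⟩ := ‹Nonempty ι›
      exact ⟨M i, hf i, hc i, fun j hj => absurd hj (Finset.notMem_empty j)⟩
    | insert i s _ ih =>
      obtain ⟨M₀, h₁, h₂, h₃⟩ := ih
      have := hf i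
      refine ⟨M i ⊔ M₀, IntermediateField.finiteDimensional_sup (M i) M₀, cp_sup (hc i) h₂,
        fun j hj => ?_⟩
      rcases Finset.mem_insert.1 hj with rfl | hj
      · exact le_sup_left
      · exact (h₃ j hj).trans le_sup_right
  obtain ⟨M₀, h₁, h₂, h₃⟩ := key Finset.univ
  exact ⟨M₀, h₁, h₂, fun i => h₃ i (Finset.mem_univ i)⟩

/-- The symbols. Proof: as `sn_pot` (`Nf/SndB.lean`). -/
theorem sn_po (L : Ld K Ω) [Nontrivial ι] (W : ι → WeierstrassCurve F) [∀ i, (W i).IsElliptic]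
    {l : ℕ} (hl : l.Prime) (hp : ∀ i, Po L l (W i)) (hlp : l ≠ L.p) (hj : ∀ i, L.Jc l (W i))
    {G : Type} [AddCommGroup G] (S : Sn ι K Ω (fun i => Pt (W i) Ω) G)
    (M : IntermediateField K Ω) (x : ∀ i, Pt (W i) Ω) (hM : FiniteDimensional K M)
    (hx : ∀ i, Fx M (x i)) : S.Z l M x := by
  have hcz : CharZero Ω := charZero_of_injective_algebraMap (algebraMap K Ω).injective
  choose Mi hfi hci hMi using hp
  obtain ⟨M₀, hf, hcp, hle⟩ := po_sup Mi hfi hci
  obtain ⟨L', hp, hL'⟩ := L.exists_bsL M₀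
  choose W' φ he hg hφ hq using fun i => hMi i M₀ (hle i) L' hL'
  have hac : IsAlgClosed Ω := IsAlgClosure.isAlgClosed K
  have halg : Algebra.IsAlgebraic K Ω := IsAlgClosure.isAlgebraic
  have hcl : IsAlgClosure M₀ Ω := ⟨hac, Algebra.IsAlgebraic.tower_top (K := K) M₀⟩
  have hj' : ∀ i, L'.Jc l (W' i) := fun i =>
    Ld.jc_ext L hl hcp L' hL' (W i) (W' i) (hq i) (hj i)
  obtain ⟨S', hT, hS'⟩ := Sn.exists_bsn M₀ S φ hφ
  let N : IntermediateField M₀ Ω := IntermediateField.extendScalars (le_sup_right : M₀ ≤ M ⊔ M₀)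
  have hN : N.restrictScalars K = M ⊔ M₀ := IntermediateField.extendScalars_restrictScalars _
  have hfN : FiniteDimensional K (M ⊔ M₀ : IntermediateField K Ω) :=
    IntermediateField.finiteDimensional_sup M M₀
  have hfN' : FiniteDimensional M₀ N := by
    have h1 : FiniteDimensional K N := by
      change FiniteDimensional K (N.restrictScalars K)
      rw [hN]
      exact hfN
    exact FiniteDimensional.right K M₀ N
  have hxN : ∀ i, Fx N (φ i (x i)) := by
    intro i
    rw [bs_fx M₀ (hφ i), hN]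
    exact (hx i).mono le_sup_left
  obtain ⟨g, hg', hge⟩ := sn_all L' hg hl (by rw [hp]; exact hlp) hj' S' N
    (fun i => φ i (x i)) hfN' hxN
  rw [hS', hN] at hge
  exact Sn.z_cop le_sup_left hx (hcp M hM) ⟨g, hT hg', hge⟩

end sym

/-- **Local theorem.** Proof: `dvG_sn`, `sn_po`. -/
theorem loc_po {n : ℕ} {W : Fin n → WeierstrassCurve F} [∀ i, (W i).IsElliptic] (L : Ld K Ω)
    {l : ℕ} (hl : l.Prime) (hp : ∀ i, Po L l (W i)) (hlp : l ≠ L.p) (hj : ∀ i, L.Jc l (W i)) :
    DvG (fun i => Ev (W i)) K Ω l := by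
  refine dvG_sn fun S hS Y M x hM hx => ?_
  have hn : Nontrivial {i // i ∈ S} := by
    obtain ⟨a, ha, b, hb, hab⟩ := Finset.one_lt_card.1 (show 1 < S.card by omega)
    exact ⟨⟨⟨a, ha⟩, ⟨b, hb⟩, fun h => hab (congrArg Subtype.val h)⟩⟩
  exact sn_po L (fun i : {i // i ∈ S} => W i) hl (fun i => hp i) hlp (fun i => hj i) Y M x hM hx

end NE
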