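import Pool.Agent.Lib.MP_f80667_ag.Sp.Po

/-! Semistable curves, odd prime numbers `l`. -/

open ZC BE PE Polynomial IntermediateField CV

namespace NE

section quad

variable {K Ω : Type} [Field K] [CharZero K] [Field Ω] [Algebra K Ω] [IsAlgClosure K Ω]

omit [CharZero K] [IsAlgClosure K Ω] in
/-- The index in two steps. -/
private theorem poB_step {N M M' : IntermediateField K Ω} :
    (N ⊔ (M ⊔ M')).fixingSubgroup.relIndex N.fixingSubgroup =
      ((N ⊔ M) ⊔ M').fixingSubgroup.relIndex (N ⊔ M).fixingSubgroup *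
        (N ⊔ M).fixingSubgroup.relIndex N.fixingSubgroup := by
  rw [← sup_assoc]
  exact (Subgroup.relIndex_mul_relIndex _ _ _
    (IntermediateField.fixingSubgroup_antitone le_sup_left)
    (IntermediateField.fixingSubgroup_antitone le_sup_left)).symm

/-- The degree of the adjunction of a root. -/
private theorem poB_deg {N : IntermediateField K Ω} [FiniteDimensional K N] {f : Polynomial Ω}
    (hf : f ≠ 0) (hd : f.natDegree ≤ 2) (hc : ∀ i, f.coeff i ∈ N) {x : Ω} (hx : f.eval x = 0) :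
    (N ⊔ K⟮x⟯).fixingSubgroup.relIndex N.fixingSubgroup ≠ 0 ∧
      (N ⊔ K⟮x⟯).fixingSubgroup.relIndex N.fixingSubgroup ≤ 2 := by
  have hal : Algebra.IsAlgebraic K Ω := IsAlgClosure.isAlgebraic
  have hxi : IsIntegral K x := (Algebra.IsAlgebraic.isAlgebraic x).isIntegral
  have hfx : FiniteDimensional K K⟮x⟯ := IntermediateField.adjoin.finiteDimensional hxi
  have hfs : FiniteDimensional K (N ⊔ K⟮x⟯ : IntermediateField K Ω) :=
    IntermediateField.finiteDimensional_sup N K⟮x⟯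
  have h1 := relIndex_fix (M := N) (N := N ⊔ K⟮x⟯) le_sup_left
  have hN : 0 < Module.finrank K N := Module.finrank_pos
  have hxN : IsIntegral N x := hxi.tower_top
  obtain ⟨g, hg⟩ : ∃ g : Polynomial N, g.map (algebraMap N Ω) = f := by
    have h2 : f ∈ Polynomial.lifts (algebraMap N Ω) := by
      rw [Polynomial.lifts_iff_coeff_lifts]
      intro n
      exact ⟨⟨f.coeff n, hc n⟩, rfl⟩
    exact (Polynomial.mem_lifts f).1 h2
  have hg0 : g ≠ 0 := by
    rintro rfl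
    rw [Polynomial.map_zero] at hg
    exact hf hg.symm
  have hgx : Polynomial.aeval x g = 0 := by
    rw [Polynomial.aeval_def, ← Polynomial.eval_map, hg, hx]
  have hdg : g.natDegree ≤ 2 := by
    rw [← Polynomial.natDegree_map (algebraMap N Ω), hg]
    exact hd
  have h3 : (minpoly N x).natDegree ≤ 2 :=
    (Polynomial.natDegree_le_natDegree (minpoly.degree_le_of_ne_zero N x hg0 hgx)).trans hdg
  have h4 : Module.finrank K (N ⊔ K⟮x⟯ : IntermediateField K Ω) =
      Module.finrank K N * (minpoly N x).natDegree := by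
    have h5 : (N ⊔ K⟮x⟯ : IntermediateField K Ω) = (N⟮x⟯).restrictScalars K :=
      (IntermediateField.restrictScalars_adjoin_eq_sup K N {x}).symm
    rw [h5, ← IntermediateField.adjoin.finrank hxN]
    exact (Module.finrank_mul_finrank K N N⟮x⟯).symm
  have h6 : (N ⊔ K⟮x⟯).fixingSubgroup.relIndex N.fixingSubgroup = (minpoly N x).natDegree := by
    rw [h4, mul_comm] at h1
    exact Nat.eq_of_mul_eq_mul_left hN h1
  rw [h6]
  exact ⟨(minpoly.natDegree_pos hxN).ne', h3⟩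

/-- The adjunction of a root of a polynomial of degree at most two. -/
private theorem poB_adj {l : ℕ} (hl : l.Prime) (h2 : l ≠ 2) {M : IntermediateField K Ω}
    (hM : FiniteDimensional K M ∧ Cp l M) {f : Polynomial Ω} (hf : f ≠ 0) (hd : f.natDegree ≤ 2)
    (hc : ∀ i, f.coeff i ∈ M) {x : Ω} (hx : f.eval x = 0) :
    ∃ M' : IntermediateField K Ω, M ≤ M' ∧ x ∈ M' ∧ FiniteDimensional K M' ∧ Cp l M' := by
  obtain ⟨hfM, h⟩ := hM
  have hal : Algebra.IsAlgebraic K Ω := IsAlgClosure.isAlgebraic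
  have hxi : IsIntegral K x := (Algebra.IsAlgebraic.isAlgebraic x).isIntegral
  have hfx : FiniteDimensional K K⟮x⟯ := IntermediateField.adjoin.finiteDimensional hxi
  refine ⟨M ⊔ K⟮x⟯, le_sup_left, (le_sup_right : K⟮x⟯ ≤ _) (mem_adjoin_simple_self K x),
    IntermediateField.finiteDimensional_sup M K⟮x⟯, ?_⟩
  intro N hN
  rw [poB_step]
  have hNM : FiniteDimensional K (N ⊔ M : IntermediateField K Ω) :=
    IntermediateField.finiteDimensional_sup N M
  obtain ⟨h1, h3⟩ := poB_deg (N := N ⊔ M) hf hd (fun i => (le_sup_right : M ≤ N ⊔ M) (hc i)) hx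
  refine Nat.Coprime.mul_left ?_ (h N hN)
  refine ((Nat.Prime.coprime_iff_not_dvd hl).2 fun h4 => ?_).symm
  have h5 := Nat.le_of_dvd (Nat.pos_of_ne_zero h1) h4
  have h6 := hl.two_le
  omega

/-- The adjunction of a root of a polynomial of degree two. -/
private theorem poB_quad {l : ℕ} (hl : l.Prime) (h2 : l ≠ 2) {M : IntermediateField K Ω}
    (hM : FiniteDimensional K M ∧ Cp l M) {a b c : Ω} (ha : a ∈ M) (hb : b ∈ M)
    (hc : c ∈ M) (h0 : a ≠ 0) {x : Ω} (hx : a * x ^ 2 + b * x + c = 0) :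
    ∃ M' : IntermediateField K Ω, M ≤ M' ∧ x ∈ M' ∧ FiniteDimensional K M' ∧ Cp l M' := by
  have hd : (Polynomial.C a * Polynomial.X ^ 2 + Polynomial.C b * Polynomial.X +
      Polynomial.C c).natDegree = 2 := Polynomial.natDegree_quadratic h0
  refine poB_adj hl h2 hM (f := Polynomial.C a * Polynomial.X ^ 2 + Polynomial.C b * Polynomial.X +
    Polynomial.C c) ?_ ?_ ?_ ?_
  · intro h
    rw [h, Polynomial.natDegree_zero] at hd
    exact absurd hd (by norm_num)
  · rw [hd]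
  · intro i
    simp only [Polynomial.coeff_add, Polynomial.coeff_C_mul, Polynomial.coeff_X_pow,
      Polynomial.coeff_X, Polynomial.coeff_C]
    refine add_mem (add_mem (mul_mem ha ?_) (mul_mem hb ?_)) ?_
    · split_ifs
      exacts [one_mem _, zero_mem _]
    · split_ifs
      exacts [one_mem _, zero_mem _]
    · split_ifs
      exacts [hc, zero_mem _]
  · simp only [Polynomial.eval_add, Polynomial.eval_mul, Polynomial.eval_C, Polynomial.eval_pow,
      Polynomial.eval_X]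
    exact hx

/-- The field for the reduction. -/
private theorem poB_gs (L : Ld K Ω) {l : ℕ} (hl : l.Prime) (hl2 : l ≠ 2) (V : WeierstrassCurve Ω)
    (hV : L.Ss V) {M₁ : IntermediateField K Ω} (hM₁ : FiniteDimensional K M₁ ∧ Cp l M₁)
    (hc₁ : SeC M₁ V) :
    ∃ M : IntermediateField K Ω, M₁ ≤ M ∧ (FiniteDimensional K M ∧ Cp l M) ∧
      ∀ M' : IntermediateField K Ω, M ≤ M' → ∀ L' : Ld M' Ω, (∀ x, L'.nm x = L.nm x) →
        ∀ W' : WeierstrassCurve M', W'.baseChange Ω = V → L'.Gs W' := by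
  classical
  have hcz : CharZero Ω := charZero_of_injective_algebraMap (algebraMap K Ω).injective
  have hf₁ : FiniteDimensional K M₁ := hM₁.1
  have hit : ∀ (M' : IntermediateField K Ω) (L' : Ld M' Ω), (∀ x, L'.nm x = L.nm x) →
      ∀ W' : WeierstrassCurve M', W'.baseChange Ω = V → L'.It W' := by
    intro M' L' hn W' hW'
    subst hW'
    exact ⟨by rw [hn]; exact hV.a₁, by rw [hn]; exact hV.a₂, by rw [hn]; exact hV.a₃,
      by rw [hn]; exact hV.a₄, by rw [hn]; exact hV.a₆⟩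
  by_cases hg : L.nm V.Δ = 1
  · refine ⟨M₁, le_rfl, hM₁, fun M' hM' L' hn W' hW' => Or.inl ⟨hit M' L' hn W' hW', ?_⟩⟩
    subst hW'
    rw [hn]
    have h1 : (W'.baseChange Ω).Δ = algebraMap M' Ω W'.Δ := WeierstrassCurve.map_Δ _ _
    rw [← h1]
    exact hg
  · have hc : L.nm V.c₄ = 1 := hV.or.resolve_left hg
    have hd : L.nm V.Δ < 1 := lt_of_le_of_ne hV.disc hg
    have hmd : ∀ (M' : IntermediateField K Ω) (L' : Ld M' Ω), (∀ x, L'.nm x = L.nm x) →
        ∀ W' : WeierstrassCurve M', W'.baseChange Ω = V → L'.Md W' := by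
      intro M' L' hn W' hW'
      refine ⟨hit M' L' hn W' hW', ?_, ?_⟩
      · subst hW'
        rw [hn]
        have h1 : (W'.baseChange Ω).Δ = algebraMap M' Ω W'.Δ := WeierstrassCurve.map_Δ _ _
        rw [← h1]
        exact hd
      · subst hW'
        rw [hn]
        have h1 : (W'.baseChange Ω).c₄ = algebraMap M' Ω W'.c₄ := WeierstrassCurve.map_c₄ _ _
        rw [← h1]
        exact hc
    obtain ⟨L₁, -, hL₁⟩ := L.exists_bsL M₁
    have hac : IsAlgClosure M₁ Ω := ⟨IsAlgClosure.isAlgClosed K, inferInstance⟩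
    let W₁ : WeierstrassCurve M₁ :=
      ⟨⟨V.a₁, hc₁.a₁⟩, ⟨V.a₂, hc₁.a₂⟩, ⟨V.a₃, hc₁.a₃⟩, ⟨V.a₄, hc₁.a₄⟩, ⟨V.a₆, hc₁.a₆⟩⟩
    have hW₁ : W₁.baseChange Ω = V := by
      ext <;> rfl
    obtain ⟨x₀, y₀, α, β, hnc⟩ := Ld.exists_nc (L := L₁) (hmd M₁ L₁ hL₁ W₁ hW₁)
    have edx : 3 * x₀ ^ 2 + 2 * V.a₂ * x₀ + V.a₄ - V.a₁ * y₀ = 0 := hnc.dx
    have edy : 2 * y₀ + V.a₁ * x₀ + V.a₃ = 0 := hnc.dy
    have ead : α + β = -V.a₁ := hnc.add
    have emu : α * β = -(V.a₂ + 3 * x₀) := hnc.mul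
    have h2 : ∀ M : IntermediateField K Ω, (2 : Ω) ∈ M := fun M => by exact_mod_cast seg_nat M 2
    have h3 : ∀ M : IntermediateField K Ω, (3 : Ω) ∈ M := fun M => by exact_mod_cast seg_nat M 3
    have h6 : (6 : Ω) ∈ M₁ := by exact_mod_cast seg_nat M₁ 6
    -- the abscissa
    obtain ⟨M₂, hle₂, hx₀, hM₂⟩ := poB_quad hl hl2 hM₁ h6 hc₁.b₂ hc₁.b₄ (by norm_num) (x := x₀)
      (by
        unfold WeierstrassCurve.b₂ WeierstrassCurve.b₄
        linear_combination 2 * edx + V.a₁ * edy)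
    have hy₀ : y₀ ∈ M₂ := by
      have e1 : y₀ = -(V.a₁ * x₀ + V.a₃) / 2 := by
        field_simp
        linear_combination edy
      rw [e1]
      exact div_mem (neg_mem (add_mem (mul_mem (hle₂ hc₁.a₁) hx₀) (hle₂ hc₁.a₃))) (h2 M₂)
    -- the slopes
    obtain ⟨M₃, hle₃, hα, hM₃⟩ := poB_quad hl hl2 hM₂ (one_mem M₂) (hle₂ hc₁.a₁)
      (neg_mem (add_mem (hle₂ hc₁.a₂) (mul_mem (h3 M₂) hx₀))) one_ne_zero (x := α) (by
      linear_combination α * ead - emu)
    have hβ : β ∈ M₃ := by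
      have e1 : β = -V.a₁ - α := by linear_combination ead
      rw [e1]
      exact sub_mem (neg_mem (hle₃ (hle₂ hc₁.a₁))) hα
    refine ⟨M₃, hle₂.trans hle₃, hM₃,
      fun M' hM' L' hn W' hW' => Or.inr ⟨hmd M' L' hn W' hW', x₀, y₀, α, β, ?_⟩⟩
    have hbot : ∀ x ∈ M', x ∈ (⊥ : IntermediateField M' Ω) := fun x hx =>
      (IntermediateField.mem_bot).2 ⟨⟨x, hx⟩, rfl⟩
    have ea : ∀ f : WeierstrassCurve Ω → Ω, f (W'.baseChange Ω) = f (W₁.baseChange Ω) := by
      intro f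
      rw [hW', hW₁]
    have e₁ : algebraMap M' Ω W'.a₁ = algebraMap M₁ Ω W₁.a₁ := ea fun V => V.a₁
    have e₂ : algebraMap M' Ω W'.a₂ = algebraMap M₁ Ω W₁.a₂ := ea fun V => V.a₂
    have e₃ : algebraMap M' Ω W'.a₃ = algebraMap M₁ Ω W₁.a₃ := ea fun V => V.a₃
    have e₄ : algebraMap M' Ω W'.a₄ = algebraMap M₁ Ω W₁.a₄ := ea fun V => V.a₄
    have e₆ : algebraMap M' Ω W'.a₆ = algebraMap M₁ Ω W₁.a₆ := ea fun V => V.a₆
    have hnn : ∀ x, L'.nm x = L₁.nm x := fun x => (hn x).trans (hL₁ x).symm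
    refine ⟨⟨?_, ?_, ?_, ?_, ?_, ?_, ?_, ?_, ?_, ?_⟩, hbot _ (hM' (hle₃ hx₀)),
      hbot _ (hM' (hle₃ hy₀)), hbot _ (hM' hα), hbot _ (hM' hβ)⟩
    · rw [hnn]; exact hnc.x_le
    · rw [hnn]; exact hnc.y_le
    · rw [hnn]; exact hnc.α_le
    · rw [hnn]; exact hnc.β_le
    · have h := hnc.dx
      simp only [dx] at h ⊢
      rw [e₁, e₂, e₄]
      exact h
    · have h := hnc.dy
      simp only [dy] at h ⊢
      rw [e₁, e₃]
      exact h
    · rw [e₁]; exact hnc.add
    · rw [e₂]; exact hnc.mul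
    · rw [hnn]; exact hnc.ne
    · have h := hnc.fe
      simp only [PE.fe] at h ⊢
      rw [e₁, e₂, e₃, e₄, e₆, hnn]
      exact h

end quad

variable {F : Type} [Field F] {K Ω : Type} [Field K] [CharZero K] [Field Ω] [Algebra K Ω]
  [Algebra F K] [Algebra F Ω] [IsScalarTower F K Ω] [IsAlgClosure K Ω]

omit [CharZero K] [Algebra F K] [IsScalarTower F K Ω] [IsAlgClosure K Ω] in
/-- Good or multiplicative reduction over the closure. -/
private theorem poB_ss (L : Ld K Ω) (V : WeierstrassCurve F) (h : L.Gd V ∨ L.Md V) :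
    L.Ss (V.baseChange Ω) := by
  have h1 : (V.baseChange Ω).Δ = algebraMap F Ω V.Δ := WeierstrassCurve.map_Δ _ _
  have h2 : (V.baseChange Ω).c₄ = algebraMap F Ω V.c₄ := WeierstrassCurve.map_c₄ _ _
  rcases h with h | h
  · exact ⟨h.a₁, h.a₂, h.a₃, h.a₄, h.a₆, by rw [h1, h.disc], Or.inl (by rw [h1, h.disc])⟩
  · exact ⟨h.a₁, h.a₂, h.a₃, h.a₄, h.a₆, by rw [h1]; exact h.disc.le,
      Or.inr (by rw [h2]; exact h.c₄)⟩

/-- Proof: as `elgEA_pot` (`Pe/ElgEA.lean`) with `W' =` the base change of `C • W` to `M'`, `φ` by `exists_vc` (`Pe/Vc.lean`). If `C • W` is good: `M = ⊥` (`cp_bot`). If it is multiplicative: `exists_nc` (`Pe/Ph.lean`) over `K`: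
the critical point `x₀` is a root of a polynomial of degree `2` over `K` (`dx = dy = 0`), `y₀`, `α`, `β` are roots of polynomials of degree at most `2` over the field generated by the previous ones: degree a power of `2`, `cp_adj` (`Pe/Cp.lean`). The last equation: `c₄³ / Δ` does not change
(`WeierstrassCurve.variableChange_c₄`, `WeierstrassCurve.variableChange_Δ`). -/
theorem po_ss (L : Ld K Ω) {l : ℕ} (hl : l.Prime) (h2 : l ≠ 2) (W : WeierstrassCurve F)
    [W.IsElliptic] (C : WeierstrassCurve.VariableChange F) (h : L.Gd (C • W) ∨ L.Md (C • W)) :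
    Po L l W := by
  classical
  have hE : (W.baseChange Ω).IsElliptic :=
    (inferInstance : (W.map (algebraMap F Ω)).IsElliptic)
  have hΔ : (W.baseChange Ω).Δ ≠ 0 := hE.isUnit.ne_zero
  have hc₁ : SeC (⊥ : IntermediateField K Ω) ((C • W).baseChange Ω) := sec_base (C • W) ⊥
  obtain ⟨M, hle, hM, hgs⟩ := poB_gs L hl h2 _ (poB_ss L (C • W) h)
    ⟨inferInstance, cp_bot l⟩ hc₁
  refine ⟨M, hM.1, hM.2, fun M' hM' L' hn => ?_⟩
  have h₁ : (⊥ : IntermediateField K Ω) ≤ M' := bot_le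
  let W' : WeierstrassCurve M' :=
    ⟨⟨_, h₁ hc₁.a₁⟩, ⟨_, h₁ hc₁.a₂⟩, ⟨_, h₁ hc₁.a₃⟩, ⟨_, h₁ hc₁.a₄⟩, ⟨_, h₁ hc₁.a₆⟩⟩
  have hW' : W'.baseChange Ω = (C • W).baseChange Ω := by
    ext <;> rfl
  have hCW : C.map (algebraMap F Ω) • W.baseChange Ω = (C • W).baseChange Ω :=
    WeierstrassCurve.map_variableChange _ _ _
  have hal : ∀ x : F, algebraMap F Ω x ∈ M' := fun x => by
    rw [IsScalarTower.algebraMap_apply F K Ω]
    exact M'.algebraMap_mem _
  obtain ⟨φ, hφ⟩ := Ld.potA_eqv W M' W' (C.map (algebraMap F Ω)) (hCW.trans hW'.symm)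
    (hal _) (hal _) (hal _) (hal _)
  have h3 : algebraMap M' Ω W'.Δ = (C.map (algebraMap F Ω) • W.baseChange Ω).Δ := by
    rw [hCW, ← hW']
    exact (WeierstrassCurve.map_Δ _ _).symm
  have h4 : algebraMap M' Ω W'.c₄ = (C.map (algebraMap F Ω) • W.baseChange Ω).c₄ := by
    rw [hCW, ← hW']
    exact (WeierstrassCurve.map_c₄ _ _).symm
  have h5 : (W.baseChange Ω).Δ = algebraMap F Ω W.Δ := WeierstrassCurve.map_Δ _ _
  have h6 : (W.baseChange Ω).c₄ = algebraMap F Ω W.c₄ := WeierstrassCurve.map_c₄ _ _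
  refine ⟨W', φ, ?_, hgs M' hM' L' hn W' hW', hφ, ?_⟩
  · have h7 : W'.Δ ≠ 0 := by
      intro h0
      rw [h0, map_zero] at h3
      have h8 : (C.map (algebraMap F Ω) • W.baseChange Ω).Δ ≠ 0 := by
        rw [WeierstrassCurve.variableChange_Δ]
        exact mul_ne_zero (pow_ne_zero _ (Units.ne_zero _)) hΔ
      exact h8 h3.symm
    exact ⟨h7.isUnit⟩
  · rw [h3, h4, WeierstrassCurve.variableChange_c₄, WeierstrassCurve.variableChange_Δ, h5, h6]
    ring

end NE
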